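import Pool.Agent.R964.ML.Stm

set_option autoImplicit false

namespace Pool.Agent.R964.ML.Alpha

open Filter Topology

theorem main : S_ALPHA := by
  intro f h0 hf
  have h1 : ∀ n, ‖f n‖ ≤ 1 := by
    intro n
    have h2 : f n = (f n - f 0) + f 0 := by ring
    rw [h2]
    refine (IsUltrametricDist.norm_add_le_max _ _).trans (max_le ?_ h0)
    rw [hf]
    have h3 := Padic.norm_int_le_one (p := 2) ((n : ℤ) - ((0 : ℕ) : ℤ))
    push_cast at h3 ⊢
    exact h3
  set F : ℕ → ℤ_[2] := fun n => ⟨f n, h1 n⟩ with hF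
  have hFF : ∀ n n' : ℕ, ‖F n - F n'‖ = ‖(n : ℤ_[2]) - (n' : ℤ_[2])‖ := by
    intro n n'
    rw [PadicInt.norm_def, PadicInt.norm_def, PadicInt.coe_sub, PadicInt.coe_sub,
      PadicInt.coe_natCast, PadicInt.coe_natCast]
    exact hf n n'
  have hex : ∀ k : ℕ, ∃ n : ℕ, ‖F n‖ ≤ (2 : ℝ) ^ (-(k : ℤ)) := by
    intro k
    have hinj : Function.Injective (fun i : Fin (2 ^ k) => PadicInt.toZModPow k (F (i : ℕ))) := by
      intro i j hij
      have h2 : F (i : ℕ) - F (j : ℕ) ∈ RingHom.ker (PadicInt.toZModPow (p := 2) k) := by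
        rw [RingHom.mem_ker, map_sub, sub_eq_zero]
        exact hij
      rw [PadicInt.ker_toZModPow, ← PadicInt.norm_le_pow_iff_mem_span_pow, hFF] at h2
      have h3 : ‖(((i : ℕ) : ℤ) - ((j : ℕ) : ℤ) : ℤ) • (1 : ℤ_[2])‖ ≤
          ((2 : ℕ) : ℝ) ^ (-(k : ℤ)) := by
        rw [zsmul_one]
        push_cast at h2 ⊢
        exact h2
      rw [zsmul_one] at h3
      have h4 := (PadicInt.norm_int_le_pow_iff_dvd).1 h3
      have hi := i.2
      have hj := j.2
      have h5 : |((i : ℕ) : ℤ) - ((j : ℕ) : ℤ)| < ((2 : ℕ) : ℤ) ^ k := by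
        have hi' : ((i : ℕ) : ℤ) < ((2 : ℕ) : ℤ) ^ k := by exact_mod_cast hi
        have hj' : ((j : ℕ) : ℤ) < ((2 : ℕ) : ℤ) ^ k := by exact_mod_cast hj
        rw [abs_lt]
        constructor <;> omega
      have h6 := Int.eq_zero_of_abs_lt_dvd h4 h5
      apply Fin.ext
      omega
    have hbij := (Fintype.bijective_iff_injective_and_card
      (fun i : Fin (2 ^ k) => PadicInt.toZModPow k (F (i : ℕ)))).2 ⟨hinj, by
        rw [Fintype.card_fin, ZMod.card]⟩
    obtain ⟨i, hi⟩ := hbij.2 0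
    refine ⟨i, ?_⟩
    have h2 : F (i : ℕ) ∈ RingHom.ker (PadicInt.toZModPow (p := 2) k) := by
      rw [RingHom.mem_ker]
      exact hi
    rw [PadicInt.ker_toZModPow, ← PadicInt.norm_le_pow_iff_mem_span_pow] at h2
    exact_mod_cast h2
  choose ν hν using hex
  obtain ⟨α, -, φ, hφ, hlim⟩ := isCompact_univ.tendsto_subseq
    (x := fun k => ((ν k : ℕ) : ℤ_[2])) (fun _ => Set.mem_univ _)
  refine ⟨α, fun n => ?_⟩
  have hz : Tendsto (fun k => F (ν (φ k))) atTop (𝓝 0) := by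
    rw [tendsto_zero_iff_norm_tendsto_zero]
    refine squeeze_zero (fun k => norm_nonneg _) (fun k => hν (φ k)) ?_
    have h2 : Tendsto (fun k : ℕ => ((1 / 2 : ℝ)) ^ k) atTop (𝓝 0) :=
      tendsto_pow_atTop_nhds_zero_of_lt_one (by norm_num) (by norm_num)
    have h3 := h2.comp hφ.tendsto_atTop
    refine h3.congr fun k => ?_
    simp only [Function.comp]
    rw [zpow_neg, zpow_natCast, one_div, inv_pow]
  have hA : Tendsto (fun k => ‖F n - F (ν (φ k))‖) atTop (𝓝 ‖F n - 0‖) :=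
    (tendsto_const_nhds.sub hz).norm
  have hB : Tendsto (fun k => ‖F n - F (ν (φ k))‖) atTop (𝓝 ‖(n : ℤ_[2]) - α‖) := by
    have h2 : Tendsto (fun k => ‖(n : ℤ_[2]) - ((ν (φ k) : ℕ) : ℤ_[2])‖) atTop
        (𝓝 ‖(n : ℤ_[2]) - α‖) := (tendsto_const_nhds.sub hlim).norm
    refine h2.congr fun k => ?_
    rw [hFF]
  have hC := tendsto_nhds_unique hA hB
  rw [sub_zero] at hC
  rw [← hC]
  rfl

end Pool.Agent.R964.ML.Alpha
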