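import Pool.Agent.R964.ML.Stm

open scoped BigOperators
open PowerSeries

set_option autoImplicit false

namespace Pool.Agent.R964.ML.Cfe

theorem N_zero_of_lt : ∀ t h : ℕ, t < h → N t h = 0
  | 0, 0, h => absurd h (lt_irrefl 0)
  | 0, _ + 1, _ => rfl
  | t + 1, 0, h => absurd h (Nat.not_lt_zero _)
  | t + 1, h + 1, hh => by
    rw [N, N_zero_of_lt t (h + 2) (by omega), N_zero_of_lt t h (by omega)]
    simp

theorem N_self : ∀ h : ℕ, N h h = 1
  | 0 => rfl
  | h + 1 => by
    rw [N, N_zero_of_lt h (h + 2) (by omega), N_self h]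
    simp

/-- the generating function of the paths from height `h` to `0` -/
noncomputable def K (h : ℕ) : ℚ⟦X⟧ := PowerSeries.mk fun t => (N (2 * t + h) h : ℚ)

theorem K_const (h : ℕ) : constantCoeff (K h) = 1 := by
  rw [← coeff_zero_eq_constantCoeff_apply, K, coeff_mk]
  simp [N_self]

theorem K_ne (h : ℕ) : constantCoeff (K h) ≠ 0 := by
  rw [K_const]; exact one_ne_zero

theorem K_inv (h : ℕ) : K h * (K h)⁻¹ = 1 := PowerSeries.mul_inv_cancel _ (K_ne h)

theorem K_zero : K 0 = 1 + X * K 1 := by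
  ext n
  rcases n with _ | n
  · simp [K, N]
  · rw [map_add, coeff_succ_X_mul]
    simp only [K, coeff_mk, coeff_one]
    rw [if_neg (by omega), zero_add]
    have : 2 * (n + 1) + 0 = (2 * n + 1) + 1 := by ring
    rw [this, N]

theorem K_succ (h : ℕ) : K (h + 1) = C ((2 * ((h + 1 : ℕ) : ℚ) + 1) ^ 2) * X * K (h + 2) + K h := by
  ext n
  rcases n with _ | n
  · rw [map_add, mul_assoc, coeff_C_mul]
    simp [K, N_self]
  · rw [map_add, mul_assoc, coeff_C_mul, coeff_succ_X_mul]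
    simp only [K, coeff_mk]
    have e1 : 2 * (n + 1) + (h + 1) = (2 * (n + 1) + h) + 1 := by ring
    have e2 : 2 * n + (h + 2) = 2 * (n + 1) + h := by ring
    rw [e1, N, e2]
    push_cast
    ring

/-- the tails -/
noncomputable def a (h : ℕ) : ℚ⟦X⟧ := C ((2 * (h : ℚ) + 1) ^ 2) * X * K (h + 1) * (K h)⁻¹

theorem main : S_CFE := by
  refine ⟨a, ?_, ?_, ?_⟩
  · intro h
    simp [a]
  · intro h
    have h1 := K_inv h
    have h2 := K_inv (h + 1)
    have h3 := K_succ h
    have e : a h * (1 - a (h + 1)) = C ((2 * (h : ℚ) + 1) ^ 2) * X * (K h)⁻¹ *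
        (K (h + 1) - C ((2 * ((h + 1 : ℕ) : ℚ) + 1) ^ 2) * X * K (h + 2) *
          (K (h + 1) * (K (h + 1))⁻¹)) := by
      simp only [a]
      ring
    rw [e, h2, mul_one, show K (h + 1) - C ((2 * ((h + 1 : ℕ) : ℚ) + 1) ^ 2) * X * K (h + 2) = K h by
      rw [sub_eq_iff_eq_add', ← h3]]
    rw [mul_assoc, mul_comm (K h)⁻¹, h1, mul_one]
  · have h1 := K_inv 0
    have hF : F = K 0 := by
      rw [F, K]
      simp
    rw [hF]
    have e : K 0 * (1 - a 0) = K 0 - X * K 1 * (K 0 * (K 0)⁻¹) := by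
      simp only [a]
      have : C ((2 * ((0 : ℕ) : ℚ) + 1) ^ 2) = (1 : ℚ⟦X⟧) := by simp
      rw [this]
      ring
    rw [e, h1, mul_one]
    nth_rewrite 1 [K_zero]
    ring

end Pool.Agent.R964.ML.Cfe
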