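import Pool.Agent.R964.ML.CompA

/-! ML-COMP (helper164): the computation modulo `2 ^ 23`, conclusion. -/

set_option autoImplicit false

namespace Pool.Agent.R964.ML.Comp

theorem val_N (T : ℕ) (hT : T = 1710) : N T 0 % 8388608 = 2508368 := by
  have h := Nat.eq_of_beq_eq_true val_rows
  have hT' : T = 0 + 2 * 428 + 2 * 427 := by rw [hT]
  have h0 : (2508368 : ℕ) ≠ 0 := by norm_num
  exact fin_N 427 428 2508368 T h h0 hT'

theorem val_Cat (n : ℕ) (hn : n = 855) : Cat n % 8388608 = 6702672 := by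
  have h := Nat.eq_of_beq_eq_true val_cb
  have h2 : Nat.mod (Nat.div (cbL n 0 1) 856) 8388608 = 6702672 := by
    rw [hn]
    exact h
  exact fin_Cat n 856 6702672 h2 (by rw [hn])

theorem main_aux (a c : ℕ) (h1 : a % 8388608 = 2508368) (h2 : c % 8388608 = 6702672) :
    (2 : ℤ) ^ 22 ∣ (a : ℤ) - c ∧ ¬ (2 : ℤ) ^ 23 ∣ (a : ℤ) - c := by
  norm_num
  constructor <;> omega

theorem main_gen (T n : ℕ) (hT : T = 1710) (hn : n = 855) :
    (2 : ℤ) ^ 22 ∣ (N T 0 : ℤ) - Cat n ∧ ¬ (2 : ℤ) ^ 23 ∣ (N T 0 : ℤ) - Cat n :=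
  main_aux _ _ (val_N T hT) (val_Cat n hn)

theorem main : S_COMP := by
  unfold S_COMP
  exact main_gen (2 * 855) 855 (by norm_num) rfl

end Pool.Agent.R964.ML.Comp
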