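import Pool.Agent.R964.ML.Stm

/-! ML-COMP, first part (helper164): a kernel computation modulo `2 ^ 23`. -/

set_option autoImplicit false

namespace Pool.Agent.R964.ML.Comp

/-- evaluate the number `x` before continuing -/
def frc {α : Type} (x : ℕ) (f : ℕ → α) : α :=
  Nat.rec (motive := fun _ => α) (f 0) (fun n _ => f (Nat.succ n)) x

theorem frc_eq {α : Type} (x : ℕ) (f : ℕ → α) : frc x f = f x := by
  cases x <;> rfl

def frcL {α : Type} (l : List ℕ) (f : List ℕ → α) : α :=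
  List.rec (motive := fun _ => α) (f []) (fun x t _ => f (x :: t)) l

theorem frcL_eq {α : Type} (l : List ℕ) (f : List ℕ → α) : frcL l f = f l := by
  cases l <;> rfl

def tt (k : ℕ) : ℕ := Nat.add (Nat.mul 16 (Nat.mul k (Nat.succ k))) 3

def pp (k : ℕ) : ℕ := Nat.mul (tt k) (tt k)

def qq (k : ℕ) : ℕ := Nat.add (Nat.mul 32 (Nat.mul k k)) 2

def goU : List ℕ → ℕ → ℕ → ℕ → List ℕ → List ℕ
  | [], k, a, b, acc =>
    frc (Nat.mod (Nat.add (Nat.mul (qq k) b) a) 8388608) fun x =>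
      List.reverseAux (b :: x :: acc) []
  | c :: l, k, a, b, acc =>
    frc (Nat.mod (Nat.add (Nat.add (Nat.mul (pp k) c) (Nat.mul (qq k) b)) a) 8388608) fun x =>
      frc (Nat.succ k) fun k' => goU l k' b c (x :: acc)

def goD : List ℕ → ℕ → ℕ → ℕ → List ℕ → List ℕ
  | [], _, _, _, acc => List.reverseAux acc []
  | c :: l, k, a, b, acc =>
    frc (Nat.mod (Nat.add (Nat.add (Nat.mul (pp k) c) (Nat.mul (qq k) b)) a) 8388608) fun x =>
      frc (Nat.succ k) fun k' => goD l k' b c (x :: acc)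

def stepU : List ℕ → List ℕ
  | [] => []
  | [b] => [b, b]
  | b :: c :: l => frc (Nat.mod (Nat.add (Nat.mul 9 c) b) 8388608) fun x => goU l 1 b c [x]

def stepD : List ℕ → List ℕ
  | [] => []
  | [_] => []
  | b :: c :: l => frc (Nat.mod (Nat.add (Nat.mul 9 c) b) 8388608) fun x => goD l 1 b c [x]

def loopU : ℕ → List ℕ → List ℕ
  | 0, l => l
  | n + 1, l => frcL (stepU l) fun l' => loopU n l'

def loopD : ℕ → List ℕ → List ℕ
  | 0, l => l
  | n + 1, l => frcL (stepD l) fun l' => loopD n l'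

/-! specification -/

def up : List ℕ → ℕ → ℕ → ℕ → List ℕ
  | [], k, a, b => [((32 * (k * k) + 2) * b + a) % 8388608, b]
  | c :: l, k, a, b =>
    (((16 * (k * (k + 1)) + 3) * (16 * (k * (k + 1)) + 3)) * c + (32 * (k * k) + 2) * b + a)
      % 8388608 :: up l (k + 1) b c

def dn : List ℕ → ℕ → ℕ → ℕ → List ℕ
  | [], _, _, _ => []
  | c :: l, k, a, b =>
    (((16 * (k * (k + 1)) + 3) * (16 * (k * (k + 1)) + 3)) * c + (32 * (k * k) + 2) * b + a)
      % 8388608 :: dn l (k + 1) b c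

theorem goU_eq (l : List ℕ) : ∀ k a b acc, goU l k a b acc = acc.reverse ++ up l k a b := by
  induction l with
  | nil =>
    intro k a b acc
    rw [goU, frc_eq, up, List.reverseAux_eq, List.append_nil, List.reverse_cons,
      List.reverse_cons, List.append_assoc]
    rfl
  | cons c l ih =>
    intro k a b acc
    rw [goU, frc_eq, frc_eq, ih, up, List.reverse_cons, List.append_assoc]
    rfl

theorem goD_eq (l : List ℕ) : ∀ k a b acc, goD l k a b acc = acc.reverse ++ dn l k a b := by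
  induction l with
  | nil =>
    intro k a b acc
    rw [goD, dn, List.reverseAux_eq, List.append_nil]
  | cons c l ih =>
    intro k a b acc
    rw [goD, frc_eq, frc_eq, ih, dn, List.reverse_cons, List.append_assoc]
    rfl

def RepZ (f : ℕ → ℕ) : ℕ → List ℕ → Prop
  | k, [] => ∀ j, k ≤ j → f j = 0
  | k, x :: l => x = f k % 8388608 ∧ RepZ f (k + 1) l

def Rep (f : ℕ → ℕ) : ℕ → List ℕ → Prop
  | _, [] => True
  | k, x :: l => x = f k % 8388608 ∧ Rep f (k + 1) l

theorem rep_of (f : ℕ → ℕ) (l : List ℕ) : ∀ k, RepZ f k l → Rep f k l := by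
  induction l with
  | nil => intro k _; trivial
  | cons x l ih => intro k h; exact ⟨h.1, ih _ h.2⟩

/-- the relation between consecutive even rows -/
def Rel (f f' : ℕ → ℕ) : Prop := f' 0 = 9 * f 1 + f 0 ∧
  ∀ k, f' (k + 1) = ((16 * ((k + 1) * (k + 1 + 1)) + 3) * (16 * ((k + 1) * (k + 1 + 1)) + 3)) *
    f (k + 2) + (32 * ((k + 1) * (k + 1)) + 2) * f (k + 1) + f k

theorem rel_N (t : ℕ) : Rel (fun k => N t (2 * k)) (fun k => N (t + 2) (2 * k)) := by
  constructor
  · show N (t + 2) 0 = 9 * N t 2 + N t 0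
    rw [N, N]
    norm_num
  · intro k
    show N (t + 2) (2 * (k + 1)) = _ * N t (2 * (k + 2)) + _ * N t (2 * (k + 1)) + N t (2 * k)
    have e1 : 2 * (k + 1) = (2 * k + 1) + 1 := by ring
    have e2 : 2 * (k + 2) = (2 * k + 2) + 2 := by ring
    have h1 : N (t + 2) ((2 * k + 1) + 1) =
        (2 * ((2 * k + 1) + 1) + 1) ^ 2 * N (t + 1) (2 * k + 1 + 2) + N (t + 1) (2 * k + 1) := rfl
    have h2 : N (t + 1) (2 * k + 1 + 2) =
        (2 * ((2 * k + 2) + 1) + 1) ^ 2 * N t (2 * k + 2 + 2) + N t (2 * k + 2) := rfl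
    have h3 : N (t + 1) (2 * k + 1) =
        (2 * (2 * k + 1) + 1) ^ 2 * N t (2 * k + 2) + N t (2 * k) := rfl
    have e3 : N t (2 * k + 1 + 1) = N t (2 * k + 2) := rfl
    rw [e1, e2, h1, h2, h3, e3]
    ring

theorem up_spec (f f' : ℕ → ℕ) (hr : Rel f f') (l : List ℕ) : ∀ k a b, RepZ f (k + 2) l →
    a = f k % 8388608 → b = f (k + 1) % 8388608 → RepZ f' (k + 1) (up l (k + 1) a b) := by
  induction l with
  | nil =>
    intro k a b hz ha hb
    have hz' : ∀ j, k + 2 ≤ j → f j = 0 := hz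
    refine ⟨?_, ?_, ?_⟩
    · rw [hr.2 k, hz' (k + 2) le_rfl, mul_zero, zero_add, ha, hb]
      simp [Nat.add_mod, Nat.mul_mod]
    · rw [hr.2 (k + 1), hz' (k + 1 + 2) (by omega), hz' (k + 1 + 1) (by omega), mul_zero, mul_zero,
        zero_add, zero_add]
      exact hb
    · intro j hj
      obtain ⟨i, rfl⟩ : ∃ i, j = i + 1 := ⟨j - 1, by omega⟩
      rw [hr.2 i, hz' (i + 2) (by omega), hz' (i + 1) (by omega), hz' i (by omega)]
      simp
  | cons c l ih =>
    intro k a b hz ha hb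
    obtain ⟨hc, hz2⟩ := hz
    refine ⟨?_, ?_⟩
    · rw [hr.2 k, ha, hb, hc]
      refine Nat.ModEq.add (Nat.ModEq.add ?_ ?_) (Nat.mod_modEq _ _)
      · exact Nat.ModEq.mul_left _ (Nat.mod_modEq _ _)
      · exact Nat.ModEq.mul_left _ (Nat.mod_modEq _ _)
    · exact ih (k + 1) b c hz2 hb hc

theorem dn_spec (f f' : ℕ → ℕ) (hr : Rel f f') (l : List ℕ) : ∀ k a b, Rep f (k + 2) l →
    a = f k % 8388608 → b = f (k + 1) % 8388608 → Rep f' (k + 1) (dn l (k + 1) a b) := by
  induction l with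
  | nil =>
    intro k a b hz ha hb
    trivial
  | cons c l ih =>
    intro k a b hz ha hb
    obtain ⟨hc, hz2⟩ := hz
    refine ⟨?_, ?_⟩
    · rw [hr.2 k, ha, hb, hc]
      refine Nat.ModEq.add (Nat.ModEq.add ?_ ?_) (Nat.mod_modEq _ _)
      · exact Nat.ModEq.mul_left _ (Nat.mod_modEq _ _)
      · exact Nat.ModEq.mul_left _ (Nat.mod_modEq _ _)
    · exact ih (k + 1) b c hz2 hb hc

theorem stepU_spec (f f' : ℕ → ℕ) (hr : Rel f f') (l : List ℕ) (h : RepZ f 0 l) (hl : l ≠ []) :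
    RepZ f' 0 (stepU l) ∧ stepU l ≠ [] := by
  match l, h, hl with
  | [], _, hl => exact absurd rfl hl
  | [b], h, _ =>
    obtain ⟨hb, hz⟩ := h
    have hz' : ∀ j, 1 ≤ j → f j = 0 := hz
    refine ⟨⟨?_, ?_, ?_⟩, by simp [stepU]⟩
    · rw [hr.1, hz' 1 le_rfl, mul_zero, zero_add]
      exact hb
    · rw [hr.2 0, hz' (0 + 2) (by omega), hz' (0 + 1) (by omega), mul_zero, mul_zero, zero_add,
        zero_add]
      exact hb
    · intro j hj
      obtain ⟨i, rfl⟩ : ∃ i, j = i + 1 := ⟨j - 1, by omega⟩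
      rw [hr.2 i, hz' (i + 2) (by omega), hz' (i + 1) (by omega), hz' i (by omega)]
      simp
  | b :: c :: l, h, _ =>
    obtain ⟨hb, hc, hz⟩ := h
    have e : stepU (b :: c :: l) = (9 * c + b) % 8388608 :: up l 1 b c := by
      rw [stepU, frc_eq, goU_eq]
      rfl
    rw [e]
    refine ⟨⟨?_, ?_⟩, by simp⟩
    · rw [hr.1, hb, hc]
      exact Nat.ModEq.add (Nat.ModEq.mul_left _ (Nat.mod_modEq _ _)) (Nat.mod_modEq _ _)
    · exact up_spec f f' hr l 0 b c hz hb hc

theorem stepD_spec (f f' : ℕ → ℕ) (hr : Rel f f') (l : List ℕ) (h : Rep f 0 l) :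
    Rep f' 0 (stepD l) := by
  match l, h with
  | [], _ => trivial
  | [b], _ => trivial
  | b :: c :: l, h =>
    obtain ⟨hb, hc, hz⟩ := h
    have e : stepD (b :: c :: l) = (9 * c + b) % 8388608 :: dn l 1 b c := by
      rw [stepD, frc_eq, goD_eq]
      rfl
    rw [e]
    refine ⟨?_, ?_⟩
    · rw [hr.1, hb, hc]
      exact Nat.ModEq.add (Nat.ModEq.mul_left _ (Nat.mod_modEq _ _)) (Nat.mod_modEq _ _)
    · exact dn_spec f f' hr l 0 b c hz hb hc

theorem loopU_spec (n : ℕ) : ∀ t l, RepZ (fun k => N t (2 * k)) 0 l → l ≠ [] →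
    RepZ (fun k => N (t + 2 * n) (2 * k)) 0 (loopU n l) := by
  induction n with
  | zero => intro t l h _; exact h
  | succ n ih =>
    intro t l h hl
    rw [loopU, frcL_eq]
    obtain ⟨h1, h2⟩ := stepU_spec _ _ (rel_N t) l h hl
    have h3 := ih (t + 2) (stepU l) h1 h2
    have e : t + 2 + 2 * n = t + 2 * (n + 1) := by ring
    rw [e] at h3
    exact h3

theorem loopD_spec (n : ℕ) : ∀ t l, Rep (fun k => N t (2 * k)) 0 l →
    Rep (fun k => N (t + 2 * n) (2 * k)) 0 (loopD n l) := by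
  induction n with
  | zero => intro t l h; exact h
  | succ n ih =>
    intro t l h
    rw [loopD, frcL_eq]
    have h3 := ih (t + 2) (stepD l) (stepD_spec _ _ (rel_N t) l h)
    have e : t + 2 + 2 * n = t + 2 * (n + 1) := by ring
    rw [e] at h3
    exact h3


theorem rep_head (f : ℕ → ℕ) (l : List ℕ) (h : Rep f 0 l) (h0 : l.headD 0 ≠ 0) :
    f 0 % 8388608 = l.headD 0 := by
  cases l with
  | nil => exact absurd rfl h0
  | cons x l => exact h.1.symm

set_option maxRecDepth 100000 in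
theorem val_rows : Nat.beq ((loopD 427 (loopU 428 [1])).headD 0) 2508368 = true := by
  decide +kernel

theorem fin_N (n m v T : ℕ) (hv : (loopD n (loopU m [1])).headD 0 = v) (h0 : v ≠ 0)
    (hT : T = 0 + 2 * m + 2 * n) : N T 0 % 8388608 = v := by
  have h1 : RepZ (fun k => N 0 (2 * k)) 0 [1] := by
    refine ⟨rfl, ?_⟩
    intro j hj
    obtain ⟨i, rfl⟩ : ∃ i, j = i + 1 := ⟨j - 1, by omega⟩
    show N 0 (2 * (i + 1)) = 0
    have e : 2 * (i + 1) = (2 * i + 1) + 1 := by ring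
    rw [e, N]
  have h2 := loopU_spec m 0 [1] h1 (by simp)
  have h3 := loopD_spec n _ _ (rep_of _ _ _ h2)
  have h4 := rep_head _ _ h3 (by rw [hv]; exact h0)
  rw [hv] at h4
  rw [hT]
  exact h4

/-- central binomial coefficients -/
def cbL : ℕ → ℕ → ℕ → ℕ
  | 0, _, c => c
  | n + 1, i, c =>
    frc (Nat.div (Nat.mul (Nat.mul 2 (Nat.succ (Nat.mul 2 i))) c) (Nat.succ i)) fun c' =>
      frc (Nat.succ i) fun i' => cbL n i' c'

theorem cbL_spec (n : ℕ) : ∀ i, cbL n i (Nat.centralBinom i) = Nat.centralBinom (i + n) := by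
  induction n with
  | zero => intro i; rfl
  | succ n ih =>
    intro i
    rw [cbL, frc_eq, frc_eq]
    have h1 : Nat.div (Nat.mul (Nat.mul 2 (Nat.succ (Nat.mul 2 i))) (Nat.centralBinom i))
        (Nat.succ i) = Nat.centralBinom (i + 1) := by
      show (2 * (2 * i + 1)) * Nat.centralBinom i / (i + 1) = _
      rw [← Nat.succ_mul_centralBinom_succ i]
      exact Nat.mul_div_cancel_left _ (Nat.succ_pos i)
    rw [h1, ih (i + 1)]
    congr 1
    omega

set_option maxRecDepth 100000 in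
theorem val_cb : Nat.beq (Nat.mod (Nat.div (cbL 855 0 1) 856) 8388608) 6702672 = true := by
  decide +kernel

theorem fin_Cat (n n1 v : ℕ) (h : Nat.mod (Nat.div (cbL n 0 1) n1) 8388608 = v)
    (hn : n1 = n + 1) : Cat n % 8388608 = v := by
  have h1 : cbL n 0 1 = Nat.centralBinom n := by
    have := cbL_spec n 0
    rw [Nat.zero_add] at this
    exact this
  rw [h1, hn] at h
  exact h

end Pool.Agent.R964.ML.Comp
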