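import Pool.Agent.R964.ML.Stm

set_option autoImplicit false

namespace Pool.Agent.R964.ML.Dig

theorem s2_le (n : ℕ) : s2 n ≤ n := Nat.digit_sum_le 2 n

theorem s2_two (n : ℕ) : s2 (n + n) = s2 n := by
  rcases Nat.eq_zero_or_pos n with rfl | hn
  · rfl
  · unfold s2
    rw [← two_mul, Nat.digits_base_mul (by norm_num) hn, List.sum_cons, zero_add]

theorem step (n : ℕ) : 2 * n - s2 n ≤ 2 * (n + 1) - s2 (n + 1) := by
  haveI : Fact (Nat.Prime 2) := ⟨Nat.prime_two⟩
  have h1 := sub_one_mul_padicValNat_factorial (p := 2) n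
  have h2 := sub_one_mul_padicValNat_factorial (p := 2) (n + 1)
  have h3 : padicValNat 2 (n + 1).factorial =
      padicValNat 2 (n + 1) + padicValNat 2 n.factorial := by
    rw [Nat.factorial_succ, padicValNat.mul (Nat.succ_ne_zero n) (Nat.factorial_ne_zero n)]
  have h4 := s2_le n
  have h5 := s2_le (n + 1)
  have e1 : (Nat.digits 2 n).sum = s2 n := rfl
  have e2 : (Nat.digits 2 (n + 1)).sum = s2 (n + 1) := rfl
  rw [e1] at h1
  rw [e2] at h2
  omega

theorem main : S_DIG := by
  haveI : Fact (Nat.Prime 2) := ⟨Nat.prime_two⟩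
  refine ⟨fun n => ?_, fun n n' h => ?_, s2_le⟩
  · have h := sub_one_mul_padicValNat_choose_eq_sub_sum_digits' (p := 2) (k := n) (n := n)
    have e1 : (Nat.digits 2 n).sum = s2 n := rfl
    have e2 : (Nat.digits 2 (n + n)).sum = s2 n := s2_two n
    rw [e1, e2] at h
    have e3 : Nat.centralBinom n = (n + n).choose n := by
      rw [Nat.centralBinom_eq_two_mul_choose, two_mul]
    rw [e3]
    omega
  · exact monotone_nat_of_le_succ step h

end Pool.Agent.R964.ML.Dig
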