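import Pool.Agent.R964.ML.Stm

open scoped BigOperators
open PowerSeries

set_option autoImplicit false

namespace Pool.Agent.R964.ML.Extr

/-- the integers `U - U ^ 2` -/
def Yz (U : ℕ → ℤ) (m : ℕ) : ℤ :=
  U m - ∑ p ∈ Finset.HasAntidiagonal.antidiagonal m, U p.1 * U p.2

theorem Yser (U : ℕ → ℤ) : (PowerSeries.mk (Yz U) : ℤ⟦X⟧) =
    PowerSeries.mk U - (PowerSeries.mk U) ^ 2 := by
  ext m
  rw [map_sub, pow_two, coeff_mul]
  simp only [coeff_mk, Yz]

/-- the series `E` -/
def Ez (U : ℕ → ℤ) : ℤ⟦X⟧ := PowerSeries.mk fun m => if m = 0 then 1 else Yz U (m + 1)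

noncomputable def Eiz (U : ℕ → ℤ) : ℤ⟦X⟧ := PowerSeries.invOfUnit (Ez U) 1

theorem E_mul (U : ℕ → ℤ) : Ez U * Eiz U = 1 := by
  refine PowerSeries.mul_invOfUnit _ _ ?_
  rw [← coeff_zero_eq_constantCoeff_apply, Ez, coeff_mk]
  simp

theorem coeff_mul_range (f h : ℤ⟦X⟧) (m : ℕ) :
    coeff m (f * h) = ∑ k ∈ Finset.range (m + 1), coeff k f * coeff (m - k) h := by
  rw [coeff_mul, Finset.Nat.sum_antidiagonal_eq_sum_range_succ (fun a b => coeff a f * coeff b h)]

theorem Ei_zero (U : ℕ → ℤ) : coeff 0 (Eiz U) = 1 := by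
  have h := congrArg (coeff 0) (E_mul U)
  rw [coeff_mul_range, zero_add, Finset.sum_range_one, coeff_zero_one] at h
  have h1 : coeff 0 (Ez U) = 1 := by simp [Ez]
  rw [h1, one_mul] at h
  exact h

theorem Ei_dvd (U : ℕ → ℤ) (hY : ∀ m, 1 ≤ m → (2 : ℤ) ^ (2 * m - 1) ∣ Yz U m) (m : ℕ) :
    (2 : ℤ) ^ (2 * m) ∣ coeff m (Eiz U) := by
  induction m using Nat.strong_induction_on with
  | _ m ih =>
    rcases m with _ | m
    · simp
    · have h := congrArg (coeff (m + 1)) (E_mul U)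
      rw [coeff_mul_range, Finset.sum_range_succ', coeff_one, if_neg (Nat.succ_ne_zero m),
        Nat.sub_zero] at h
      have h1 : coeff 0 (Ez U) = 1 := by simp [Ez]
      rw [h1, one_mul] at h
      have h2 : coeff (m + 1) (Eiz U) = -∑ k ∈ Finset.range (m + 1),
          coeff (k + 1) (Ez U) * coeff (m + 1 - (k + 1)) (Eiz U) := by linarith
      rw [h2]
      refine (Finset.dvd_sum fun k hk => ?_).neg_right
      have hk' := Finset.mem_range.1 hk
      have d1 : (2 : ℤ) ^ (2 * (k + 1) + 1) ∣ coeff (k + 1) (Ez U) := by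
        rw [Ez, coeff_mk, if_neg (Nat.succ_ne_zero k)]
        have := hY (k + 1 + 1) (by omega)
        have e : 2 * (k + 1 + 1) - 1 = 2 * (k + 1) + 1 := by omega
        rwa [e] at this
      have d2 := ih (m + 1 - (k + 1)) (by omega)
      refine (pow_dvd_pow 2 ?_).trans (by rw [pow_add]; exact mul_dvd_mul d1 d2)
      omega

/-- the series `P`, `Q` -/
def Pz (U : ℕ → ℤ) : ℤ⟦X⟧ := PowerSeries.mk fun m => Yz U (m + 2) + 2 * U (m + 1)

def Qz (U : ℕ → ℤ) : ℤ⟦X⟧ := PowerSeries.mk fun m => Yz U (m + 2)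

theorem XE (U : ℕ → ℤ) (h0 : Yz U 0 = 0) (h1 : Yz U 1 = 0) :
    X * Ez U = X + PowerSeries.mk (Yz U) := by
  ext m
  rcases m with _ | m
  · rw [coeff_zero_X_mul, map_add, coeff_mk, h0, coeff_zero_X, add_zero]
  · rw [coeff_succ_X_mul, map_add, coeff_mk, Ez, coeff_mk, coeff_X]
    rcases Nat.eq_zero_or_pos m with rfl | hm
    · simp [h1]
    · rw [if_neg hm.ne', if_neg (by omega), zero_add]

theorem XQ (U : ℕ → ℤ) (h0 : Yz U 0 = 0) (h1 : Yz U 1 = 0) :
    X * (X * Qz U) = PowerSeries.mk (Yz U) := by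
  ext m
  rcases m with _ | _ | m
  · rw [coeff_zero_X_mul, coeff_mk, h0]
  · rw [coeff_succ_X_mul, coeff_zero_X_mul, coeff_mk, h1]
  · rw [coeff_succ_X_mul, coeff_succ_X_mul, Qz, coeff_mk, coeff_mk]

theorem XP (U : ℕ → ℤ) (h0 : Yz U 0 = 0) (h1 : Yz U 1 = 0) (hU : U 0 = 0) :
    X * (X * Pz U) = PowerSeries.mk (Yz U) + 2 * (X * PowerSeries.mk U) := by
  have h2 : (2 : ℤ⟦X⟧) = C 2 := rfl
  ext m
  rcases m with _ | _ | m
  · rw [coeff_zero_X_mul, map_add, coeff_mk, h0, h2, coeff_C_mul, coeff_zero_X_mul]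
    simp
  · rw [coeff_succ_X_mul, coeff_zero_X_mul, map_add, coeff_mk, h1, h2, coeff_C_mul,
      coeff_succ_X_mul, coeff_mk, hU]
    simp
  · rw [coeff_succ_X_mul, coeff_succ_X_mul, Pz, coeff_mk, map_add, coeff_mk, h2, coeff_C_mul,
      coeff_succ_X_mul, coeff_mk]

theorem catalan_g (hGG : S_GG) : (PowerSeries.mk fun n => (Cat n : ℚ)) * (g + 1) = 2 * g := by
  set c : ℚ⟦X⟧ := PowerSeries.mk fun n => (Cat n : ℚ) with hc
  have h1 : c ^ 2 * X + 1 = c := by
    have h := congrArg (PowerSeries.map (Nat.castRingHom ℚ)) catalanSeries_sq_mul_X_add_one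
    have e : PowerSeries.map (Nat.castRingHom ℚ) catalanSeries = c := by
      ext n
      rw [coeff_map, catalanSeries_coeff, hc, coeff_mk, catalan_eq_centralBinom_div]
      rfl
    rw [map_add, map_mul, map_pow, e, map_one, PowerSeries.map_X] at h
    exact h
  have hGG' : g ^ 2 * (1 - 4 * X) = 1 := hGG
  have cg : constantCoeff g = 1 := by
    rw [← coeff_zero_eq_constantCoeff_apply, g, coeff_mk]
    simp
  have h2 : (g * (1 - 2 * X * c) - 1) * (g * (1 - 2 * X * c) + 1) = 0 := by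
    linear_combination hGG' + 4 * X * g ^ 2 * h1
  have h3 : g * (1 - 2 * X * c) + 1 ≠ 0 := by
    intro h0
    have := congrArg constantCoeff h0
    rw [map_add, map_mul, map_sub, map_mul, map_mul, constantCoeff_X, cg, map_one, map_zero] at this
    norm_num at this
  have h4 := (mul_eq_zero.1 h2).resolve_right h3
  have h5 : (2 * X * g) * (c * (g + 1) - 2 * g) = 0 := by
    linear_combination -(g + 1) * h4 + hGG'
  have h6 : (2 * X * g : ℚ⟦X⟧) ≠ 0 := by
    have hg : g ≠ 0 := by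
      intro h0
      rw [h0, map_zero] at cg
      exact zero_ne_one cg
    have h20 : (2 : ℚ⟦X⟧) ≠ 0 := by
      intro h
      have h' := congrArg constantCoeff h
      rw [map_ofNat, map_zero] at h'
      norm_num at h'
    exact mul_ne_zero (mul_ne_zero h20 X_ne_zero) hg
  exact sub_eq_zero.1 ((mul_eq_zero.1 h5).resolve_left h6)

theorem main : S_EXTR := by
  intro hGG φ hφ U hU hF
  obtain ⟨hU0, hU1, hU2, hU3, hUd, hYd⟩ := hU
  obtain ⟨hφX, hφC, hφ1, hφ2⟩ := hφ
  have hY0 : Yz U 0 = 0 := by simp [Yz, hU0]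
  have hY1 : Yz U 1 = 0 := by
    simp [Yz, Finset.Nat.antidiagonal_succ, hU0, hU1]
  have hY2 : Yz U 2 = 8 := by
    simp [Yz, Finset.Nat.antidiagonal_succ, hU0, hU1, hU2]
  have hY3 : Yz U 3 = 256 := by
    simp [Yz, Finset.Nat.antidiagonal_succ, hU0, hU1, hU2, hU3]
  have hYd' : ∀ m, 1 ≤ m → (2 : ℤ) ^ (2 * m - 1) ∣ Yz U m := hYd
  -- the series
  let Az : ℤ⟦X⟧ := Pz U * Eiz U
  let Bz : ℤ⟦X⟧ := -(Qz U * Eiz U)
  refine ⟨fun m => coeff m Az, fun m => coeff m Bz, ?_, ?_, ?_, ?_, ?_⟩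
  · show coeff 0 (Pz U * Eiz U) = 8
    rw [coeff_mul_range, zero_add, Finset.sum_range_one, Ei_zero, Pz, coeff_mk, zero_add, zero_add,
      hY2, hU1]
    norm_num
  · show coeff 1 (Pz U * Eiz U) = 208
    have hE1 : coeff 1 (Eiz U) = -8 := by
      have h := congrArg (coeff 1) (E_mul U)
      rw [coeff_mul_range, Finset.sum_range_succ, Finset.sum_range_one, coeff_one] at h
      simp only [Ez, coeff_mk, Nat.sub_self, Nat.sub_zero] at h
      rw [Ei_zero] at h
      norm_num [hY2] at h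
      linarith
    rw [coeff_mul_range, Finset.sum_range_succ, Finset.sum_range_one, Nat.sub_self, Nat.sub_zero,
      Ei_zero, hE1, Pz, coeff_mk, coeff_mk]
    norm_num [hY2, hY3, hU1, hU2]
  · intro m
    show (2 : ℤ) ^ ((3 * m + 6) / 2) ∣ coeff m (Pz U * Eiz U)
    rw [coeff_mul_range]
    refine Finset.dvd_sum fun k hk => ?_
    have hk' := Finset.mem_range.1 hk
    have d1 : (2 : ℤ) ^ ((3 * k + 6) / 2) ∣ coeff k (Pz U) := by
      rw [Pz, coeff_mk]
      apply dvd_add
      · exact (pow_dvd_pow 2 (by omega)).trans (hYd' (k + 2) (by omega))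
      · have h1 := mul_dvd_mul_left 2 (hUd (k + 1))
        rw [← pow_succ'] at h1
        exact (pow_dvd_pow 2 (by omega)).trans h1
    have d2 := Ei_dvd U hYd' (m - k)
    refine (pow_dvd_pow 2 ?_).trans (by rw [pow_add]; exact mul_dvd_mul d1 d2)
    omega
  · intro m
    show (2 : ℤ) ^ (2 * m + 3) ∣ coeff m (-(Qz U * Eiz U))
    rw [map_neg, coeff_mul_range]
    refine (Finset.dvd_sum fun k hk => ?_).neg_right
    have hk' := Finset.mem_range.1 hk
    have d1 : (2 : ℤ) ^ (2 * k + 3) ∣ coeff k (Qz U) := by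
      rw [Qz, coeff_mk]
      exact (pow_dvd_pow 2 (by omega)).trans (hYd' (k + 2) (by omega))
    have d2 := Ei_dvd U hYd' (m - k)
    refine (pow_dvd_pow 2 ?_).trans (by rw [pow_add]; exact mul_dvd_mul d1 d2)
    omega
  · -- the identity
    let mq : ℤ⟦X⟧ →+* ℚ⟦X⟧ := PowerSeries.map (Int.castRingHom ℚ)
    let Φ : ℤ⟦X⟧ →+* ℚ⟦X⟧ := φ.comp mq
    set W : ℚ⟦X⟧ := φ X with hW
    have hΦX : Φ X = W := by
      show φ (PowerSeries.map (Int.castRingHom ℚ) X) = φ X
      rw [PowerSeries.map_X]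
    set u : ℚ⟦X⟧ := Φ (PowerSeries.mk U) with hu
    have hmU : mq (PowerSeries.mk U) = PowerSeries.mk fun k => (U k : ℚ) := by
      ext k
      show coeff k (PowerSeries.map (Int.castRingHom ℚ) (PowerSeries.mk U)) = _
      rw [coeff_map, coeff_mk, coeff_mk]
      rfl
    have hφV : φ (1 - 2 * PowerSeries.mk fun k => (U k : ℚ)) = 1 - 2 * u := by
      rw [map_sub, map_one, map_mul, map_ofNat, hu, ← hmU]
      rfl
    rw [hφV] at hF
    set e : ℚ⟦X⟧ := Φ (Ez U) with he
    set α : ℚ⟦X⟧ := Φ Az with hα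
    set β : ℚ⟦X⟧ := Φ Bz with hβ
    have hY : Φ (PowerSeries.mk (Yz U)) = u - u ^ 2 := by
      rw [Yser, map_sub, map_pow]
    have rE : W * e = W + (u - u ^ 2) := by
      have h := congrArg Φ (XE U hY0 hY1)
      rw [map_mul, map_add, hΦX, hY] at h
      exact h
    have rEi : e * Φ (Eiz U) = 1 := by
      have h := congrArg Φ (E_mul U)
      rw [map_mul, map_one] at h
      exact h
    have rP : W * (W * Φ (Pz U)) = (u - u ^ 2) + 2 * (W * u) := by
      have h := congrArg Φ (XP U hY0 hY1 hU0)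
      rw [map_mul, map_mul, map_add, map_mul, map_mul, hΦX, hY, map_ofNat] at h
      exact h
    have rQ : W * (W * Φ (Qz U)) = u - u ^ 2 := by
      have h := congrArg Φ (XQ U hY0 hY1)
      rw [map_mul, map_mul, hΦX, hY] at h
      exact h
    have hαe : α = Φ (Pz U) * Φ (Eiz U) := map_mul Φ _ _
    have hβe : β = -(Φ (Qz U) * Φ (Eiz U)) := by
      rw [hβ]
      show Φ (-(Qz U * Eiz U)) = _
      rw [map_neg, map_mul]
    have dα : W ^ 2 * e * α = u * (1 + 2 * W - u) := by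
      rw [hαe]
      linear_combination W * (W * Φ (Pz U)) * rEi + rP
    have dβ : W ^ 2 * e * β = -(u * (1 - u)) := by
      rw [hβe]
      linear_combination -(W * (W * Φ (Qz U))) * rEi - rQ
    have hGG' : g ^ 2 * (1 - 4 * X) = 1 := hGG
    have hg2 : g ^ 2 = 1 + 4 * W := by
      linear_combination (-4 * g ^ 2) * hφX + (1 + 4 * W) * hGG'
    set c : ℚ⟦X⟧ := PowerSeries.mk fun n => (Cat n : ℚ) with hc
    have hcg : c * (g + 1) = 2 * g := catalan_g hGG
    have cc : ∀ f : ℚ⟦X⟧, constantCoeff (φ f) = constantCoeff f := by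
      intro f
      have cg : constantCoeff g = 1 := by
        rw [← coeff_zero_eq_constantCoeff_apply, g, coeff_mk]
        simp
      have h4 := hφ1 f 0
      rw [coeff_zero_eq_constantCoeff_apply, map_mul, cg, one_mul, zero_add,
        Finset.sum_range_one] at h4
      rw [h4]
      simp
    have hW0 : W ≠ 0 := by
      intro h0
      rw [h0, zero_mul] at hφX
      exact X_ne_zero hφX.symm
    have he0 : e ≠ 0 := by
      intro h0
      rw [h0, zero_mul] at rEi
      exact zero_ne_one rEi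
    have cg : constantCoeff g = 1 := by
      rw [← coeff_zero_eq_constantCoeff_apply, g, coeff_mk]
      simp
    have cu : constantCoeff u = 0 := by
      have h1 : u = φ (PowerSeries.mk fun k => (U k : ℚ)) := by
        rw [hu, ← hmU]
        rfl
      rw [h1, cc, ← coeff_zero_eq_constantCoeff_apply, coeff_mk, hU0]
      simp
    have hK : (g + (1 - 2 * u)) * (g + 1) ≠ 0 := by
      intro h0
      have := congrArg constantCoeff h0
      rw [map_mul, map_add, map_add, map_sub, map_mul, cg, cu, map_one, map_zero] at this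
      norm_num at this
    have hD : W ^ 2 * e * ((g + (1 - 2 * u)) * (g + 1)) ≠ 0 :=
      mul_ne_zero (mul_ne_zero (pow_ne_zero 2 hW0) he0) hK
    have hid : 2 * (F - c) = g * α + g ^ 2 * β := by
      apply mul_left_cancel₀ hD
      have L : (W ^ 2 * e * ((g + (1 - 2 * u)) * (g + 1))) * (2 * (F - c)) =
          W ^ 2 * e * (8 * g * u) := by
        linear_combination (W ^ 2 * e * 2 * (g + 1)) * hF - (W ^ 2 * e * 2 * (g + (1 - 2 * u))) * hcg
      have R : (W ^ 2 * e * ((g + (1 - 2 * u)) * (g + 1))) * (g * α + g ^ 2 * β) =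
          W ^ 2 * e * (8 * g * u) := by
        have R1 : (W ^ 2 * e * ((g + (1 - 2 * u)) * (g + 1))) * (g * α + g ^ 2 * β) =
            g * ((g + (1 - 2 * u)) * (g + 1)) * ((W ^ 2 * e * α) + g * (W ^ 2 * e * β)) := by
          ring
        have R2 : (g + (1 - 2 * u)) * (g + 1) = (1 + 4 * W + (1 - 2 * u)) + g * (2 - 2 * u) := by
          linear_combination hg2
        rw [R1, dα, dβ, R2]
        linear_combination (-(g * (u * (1 - u)) * (2 - 2 * u))) * hg2 - (8 * g * u * W) * rE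
      rw [L, R]
    intro n
    have hn := congrArg (coeff n) hid
    have h2c : (2 : ℚ⟦X⟧) = C 2 := rfl
    rw [h2c, coeff_C_mul, map_sub, hc, coeff_mk, F, coeff_mk, map_add] at hn
    have hα' : α = φ (mq Az) := rfl
    have hβ' : β = φ (mq Bz) := rfl
    rw [hα', hβ', hφ1, hφ2] at hn
    have k1 : ∀ m, coeff m (mq Az) = ((coeff m Az : ℤ) : ℚ) := fun m => by
      show coeff m (PowerSeries.map (Int.castRingHom ℚ) Az) = _
      rw [coeff_map]
      rfl
    have k2 : ∀ m, coeff m (mq Bz) = ((coeff m Bz : ℤ) : ℚ) := fun m => by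
      show coeff m (PowerSeries.map (Int.castRingHom ℚ) Bz) = _
      rw [coeff_map]
      rfl
    simp only [k1, k2] at hn
    exact hn

end Pool.Agent.R964.ML.Extr
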