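import Pool.Agent.R964.ML.Stm

/-!
FE: Brouncker's functional equation for power series.
-/

set_option autoImplicit false

open PowerSeries

namespace Pool.Agent.R964.ML.Fe

/-- the defect of the functional equation at height `h` -/
noncomputable def D (k k' : ℕ → ℚ⟦X⟧) (h : ℕ) : ℚ⟦X⟧ :=
  (k h + 1 - 2 * (h : ℚ⟦X⟧) * X) * ((1 + 2 * X) * k' h + 1 + (2 + 2 * (h : ℚ⟦X⟧)) * X) -
    (1 + X) ^ 2

theorem claim {k k' : ℕ → ℚ⟦X⟧} (h : ℕ)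
    (e1 : k h * (2 + k (h + 1)) = (2 * (h : ℚ⟦X⟧) + 1) ^ 2 * X ^ 2)
    (e2 : k' h * (2 + k' (h + 1)) * (1 + 2 * X) ^ 2 = (2 * (h : ℚ⟦X⟧) + 1) ^ 2 * X ^ 2) :
    k h * k' h * (1 + 2 * X) * D k k' (h + 1) =
      -((2 * (h : ℚ⟦X⟧) + 1) ^ 2 * X ^ 2 * D k k' h) := by
  unfold D
  push_cast
  linear_combination
    (k' h * (1 + 2 * X) * ((1 + 2 * X) * k' (h + 1) + 1 + (2 + 2 * ((h : ℚ⟦X⟧) + 1)) * X)) * e1 +
    ((2 * (h : ℚ⟦X⟧) + 1) ^ 2 * X ^ 2 - k h * (1 + 2 * ((h : ℚ⟦X⟧) + 1) * X)) * e2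

theorem main : S_FE := by
  intro a ρ ψ ha hρ hψ
  obtain ⟨ha0, ha1, _⟩ := ha
  obtain ⟨hρX, hρC, hρe, _⟩ := hρ
  obtain ⟨hψX, hψC, _⟩ := hψ
  obtain ⟨k, hk⟩ : ∃ k : ℕ → ℚ⟦X⟧, k = fun h => -2 * ρ (a h) := ⟨_, rfl⟩
  obtain ⟨k', hk'⟩ : ∃ k' : ℕ → ℚ⟦X⟧, k' = fun h => ψ (k h) := ⟨_, rfl⟩
  have hC : ∀ h : ℕ, (C ((2 * (h : ℚ) + 1) ^ 2) : ℚ⟦X⟧) = (2 * (h : ℚ⟦X⟧) + 1) ^ 2 := by
    intro h
    rw [map_pow, map_add, map_mul, map_one, map_natCast, map_ofNat]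
  have h4 : (C (-1 / 4 : ℚ) : ℚ⟦X⟧) * 4 = -1 := by
    have : (4 : ℚ⟦X⟧) = C (4 : ℚ) := by rw [map_ofNat]
    rw [this, ← map_mul]
    norm_num
  have e1 : ∀ h, k h * (2 + k (h + 1)) = (2 * (h : ℚ⟦X⟧) + 1) ^ 2 * X ^ 2 := by
    intro h
    have h1 := congrArg ρ (ha1 h)
    rw [map_mul, map_sub, map_one, map_mul, hρC, hρX, hC] at h1
    rw [hk]
    linear_combination (-4) * h1 - (2 * (h : ℚ⟦X⟧) + 1) ^ 2 * X ^ 2 * h4
  have hψc : ∀ h : ℕ, ψ ((2 * (h : ℚ⟦X⟧) + 1) ^ 2) = (2 * (h : ℚ⟦X⟧) + 1) ^ 2 := by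
    intro h
    rw [← hC, hψC]
  have e2 : ∀ h, k' h * (2 + k' (h + 1)) * (1 + 2 * X) ^ 2 =
      (2 * (h : ℚ⟦X⟧) + 1) ^ 2 * X ^ 2 := by
    intro h
    have h1 := congrArg ψ (e1 h)
    rw [map_mul, map_add, map_ofNat, map_mul, hψc, map_pow] at h1
    have h2 : k' h = ψ (k h) := by rw [hk']
    have h3 : k' (h + 1) = ψ (k (h + 1)) := by rw [hk']
    rw [h2, h3]
    linear_combination (1 + 2 * X) ^ 2 * h1 + (2 * (h : ℚ⟦X⟧) + 1) ^ 2 *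
      (ψ X * (1 + 2 * X) + X) * hψX
  -- units
  have hk0 : ∀ h, constantCoeff (k h) = 0 := by
    intro h
    have h1 := hρe (a h) 0
    rw [mul_zero, pow_zero, one_mul, coeff_zero_eq_constantCoeff_apply,
      coeff_zero_eq_constantCoeff_apply, ha0] at h1
    rw [hk]
    simp only [map_mul, h1, mul_zero]
  have hu : ∀ h, ∃ u : ℚ⟦X⟧, (2 + k (h + 1)) * u = 1 := by
    intro h
    have h1 : IsUnit (2 + k (h + 1)) := by
      rw [isUnit_iff_constantCoeff, map_add, hk0, map_ofNat, add_zero]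
      exact isUnit_iff_ne_zero.2 two_ne_zero
    exact h1.exists_right_inv
  have hv : ∃ v : ℚ⟦X⟧, (1 + 2 * X) * v = 1 := by
    have h1 : IsUnit (1 + 2 * X : ℚ⟦X⟧) := by
      rw [isUnit_iff_constantCoeff, map_add, map_one, map_mul, constantCoeff_X, mul_zero,
        add_zero]
      exact isUnit_one
    exact h1.exists_right_inv
  obtain ⟨v, hv⟩ := hv
  have hD : ∀ h, ∃ r : ℚ⟦X⟧, D k k' h = X ^ 2 * r * D k k' (h + 1) := by
    intro h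
    obtain ⟨u, hu⟩ := hu h
    have hu' := congrArg ψ hu
    rw [map_mul, map_add, map_ofNat, map_one] at hu'
    have h3 : k' (h + 1) = ψ (k (h + 1)) := by rw [hk']
    rw [← h3] at hu'
    have hcl := claim h (e1 h) (e2 h)
    have hne : (2 * (h : ℚ⟦X⟧) + 1) ^ 2 * X ^ 2 ≠ 0 := by
      refine mul_ne_zero (pow_ne_zero _ ?_) (pow_ne_zero _ X_ne_zero)
      intro h0
      have h5 := congrArg (constantCoeff (R := ℚ)) h0
      rw [map_add, map_mul, map_one, map_natCast, map_ofNat, map_zero] at h5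
      have : (0 : ℚ) < 2 * h + 1 := by positivity
      exact this.ne' h5
    refine ⟨-((2 * (h : ℚ⟦X⟧) + 1) ^ 2 * u * ψ u * v), ?_⟩
    apply mul_left_cancel₀ hne
    have g1 : k h = (2 * (h : ℚ⟦X⟧) + 1) ^ 2 * X ^ 2 * u := by
      linear_combination u * e1 h - k h * hu
    have g2 : k' h * (1 + 2 * X) = (2 * (h : ℚ⟦X⟧) + 1) ^ 2 * X ^ 2 * ψ u * v := by
      linear_combination ψ u * v * e2 h - k' h * (1 + 2 * X) ^ 2 * v * hu' -
        k' h * (1 + 2 * X) * hv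
    have g3 : k h * k' h * (1 + 2 * X) = ((2 * (h : ℚ⟦X⟧) + 1) ^ 2 * X ^ 2 * u) *
        ((2 * (h : ℚ⟦X⟧) + 1) ^ 2 * X ^ 2 * ψ u * v) := by
      rw [← g2, ← g1]
      ring
    rw [g3] at hcl
    linear_combination hcl
  have hdvd : ∀ N h, X ^ (2 * N) ∣ D k k' h := by
    intro N
    induction N with
    | zero => intro h; rw [mul_zero, pow_zero]; exact one_dvd _
    | succ N ih =>
      intro h
      obtain ⟨r, hr⟩ := hD h
      obtain ⟨w, hw⟩ := ih (h + 1)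
      refine ⟨r * w, ?_⟩
      rw [hr, hw]
      ring
  have hD0 : D k k' 0 = 0 := by
    ext n
    rw [map_zero]
    exact X_pow_dvd_iff.1 (hdvd (n + 1) 0) n (by omega)
  unfold D at hD0
  have h5 : k' 0 = -2 * ψ (ρ (a 0)) := by
    rw [hk', hk]
    simp only [map_mul, map_neg, map_ofNat]
  have h6 : k 0 = -2 * ρ (a 0) := by rw [hk]
  rw [h5, h6, Nat.cast_zero] at hD0
  linear_combination hD0

end Pool.Agent.R964.ML.Fe
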