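import Pool.Agent.R964.ML.Stm

open scoped BigOperators

set_option autoImplicit false

namespace Pool.Agent.R964.ML.Final

/-- divisibility and norm in `ℤ_[2]` -/
theorem dvd_iff_norm (x : ℤ_[2]) (k : ℕ) :
    (2 : ℤ_[2]) ^ k ∣ x ↔ ‖x‖ ≤ (2 : ℝ) ^ (-(k : ℤ)) := by
  have h := PadicInt.norm_le_pow_iff_mem_span_pow (p := 2) x k
  rw [Ideal.mem_span_singleton] at h
  exact_mod_cast h.symm

theorem dvd_iff_norm_int (z : ℤ) (k : ℕ) :
    (2 : ℤ) ^ k ∣ z ↔ ‖(z : ℚ_[2])‖ ≤ (2 : ℝ) ^ (-(k : ℤ)) := by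
  have h := Padic.norm_int_le_pow_iff_dvd (p := 2) z k
  exact_mod_cast h.symm

theorem dvd_int_iff (z : ℤ) (k : ℕ) : (2 : ℤ_[2]) ^ k ∣ (z : ℤ_[2]) ↔ (2 : ℤ) ^ k ∣ z := by
  have h := PadicInt.pow_p_dvd_int_iff (p := 2) k z
  exact_mod_cast h

theorem norm_nat (c v : ℕ) (hc : c ≠ 0) (hv : padicValNat 2 c = v) :
    ‖(c : ℚ_[2])‖ = (2 : ℝ) ^ (-(v : ℤ)) := by
  obtain ⟨u, hu⟩ := (pow_padicValNat_dvd : 2 ^ padicValNat 2 c ∣ c)
  rw [hv] at hu
  have hu2 : ¬ 2 ∣ u := by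
    intro h
    obtain ⟨w, rfl⟩ := h
    have h1 : 2 ^ (padicValNat 2 c + 1) ∣ c := by
      rw [hv]
      exact ⟨w, by rw [hu]; ring⟩
    exact pow_succ_padicValNat_not_dvd hc h1
  have hn : ‖(u : ℚ_[2])‖ = 1 := by
    have := (Padic.norm_natCast_eq_one_iff (p := 2) (n := u)).2
    apply this
    exact (Nat.Prime.coprime_iff_not_dvd Nat.prime_two).2 hu2
  rw [hu]
  push_cast
  rw [norm_mul, hn, mul_one, norm_pow]
  have h2 : ‖(2 : ℚ_[2])‖ = (2 : ℝ)⁻¹ := by
    have := Padic.norm_p (p := 2)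
    exact_mod_cast this
  rw [h2, zpow_neg, zpow_natCast, inv_pow]

theorem main : S_FINAL := by
  intro hPath hAB hIso hAlpha hDig hComp
  obtain ⟨A, B, hA0, hA1, hA, hB, hF⟩ := hAB
  obtain ⟨hf0, hiso⟩ := hIso A hA0 hA1 hA
  obtain ⟨α, hα⟩ := hAlpha (fun n => ((fA A n : ℚ) : ℚ_[2])) hf0 hiso
  obtain ⟨hd1, hd2, hd3⟩ := hDig
  -- the identity
  have key : ∀ n : ℕ, ∃ c : ℤ, ((L n - Cat n : ℤ) : ℚ) =
      4 * (Nat.centralBinom n : ℚ) * fA A n + (2 : ℚ) ^ (2 * n + 2) * c := by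
    intro n
    have h1 := hF n
    have h2 : ∃ c : ℤ, (∑ m ∈ Finset.range (n + 1), (B m : ℚ) * ((n.choose m : ℚ) * 4 ^ (n - m)))
        = (2 : ℚ) ^ (2 * n + 3) * c := by
      have h3 : (2 : ℤ) ^ (2 * n + 3) ∣
          ∑ m ∈ Finset.range (n + 1), (B m : ℤ) * ((n.choose m : ℤ) * 4 ^ (n - m)) := by
        apply Finset.dvd_sum
        intro m hm
        have hm' : m ≤ n := by
          have := Finset.mem_range.1 hm
          omega
        obtain ⟨b, hb⟩ := hB m
        refine ⟨b * (n.choose m : ℤ), ?_⟩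
        rw [hb]
        have e : (2 : ℤ) ^ (2 * n + 3) = 2 ^ (2 * m + 3) * 4 ^ (n - m) := by
          rw [show (4 : ℤ) = 2 ^ 2 by norm_num, ← pow_mul, ← pow_add]
          congr 1
          omega
        rw [e]
        ring
      obtain ⟨c, hc⟩ := h3
      refine ⟨c, ?_⟩
      have := congrArg (fun z : ℤ => (z : ℚ)) hc
      push_cast at this
      exact this
    obtain ⟨c, hc⟩ := h2
    refine ⟨c, ?_⟩
    rw [hc] at h1
    have h4 : (∑ m ∈ Finset.range (n + 1),
        (A m : ℚ) * ((Nat.centralBinom n : ℚ) * (n.choose m : ℚ) / (Nat.centralBinom m : ℚ)))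
        = 8 * (Nat.centralBinom n : ℚ) * fA A n := by
      rw [fA, Finset.mul_sum]
      apply Finset.sum_congr rfl
      intro m _
      have hm : (Nat.centralBinom m : ℚ) ≠ 0 := by
        exact_mod_cast Nat.centralBinom_ne_zero m
      field_simp
    rw [h4] at h1
    have h5 : ((L n - Cat n : ℤ) : ℚ) = (N (2 * n) 0 : ℚ) - (Cat n : ℚ) := by
      rw [hPath n]
      push_cast
      ring
    rw [h5]
    have e2 : (2 : ℚ) ^ (2 * n + 3) = 2 * 2 ^ (2 * n + 2) := by ring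
    rw [e2] at h1
    linarith
  -- the equivalence
  have equiv : ∀ n : ℕ, ∀ k ≤ 2 * n + 2, ((2 : ℤ) ^ k ∣ L n - Cat n) ↔
      ((2 : ℤ_[2]) ^ k ∣ 2 ^ (s2 n + 2) * ((n : ℤ_[2]) - α)) := by
    intro n k hk
    obtain ⟨c, hc⟩ := key n
    have hc' : ((L n - Cat n : ℤ) : ℚ_[2]) =
        4 * (Nat.centralBinom n : ℚ_[2]) * ((fA A n : ℚ) : ℚ_[2]) + (2 : ℚ_[2]) ^ (2 * n + 2) * c := by
      have := congrArg (fun q : ℚ => (q : ℚ_[2])) hc
      push_cast at this
      push_cast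
      exact this
    have hy : ‖(2 : ℚ_[2]) ^ (2 * n + 2) * (c : ℚ_[2])‖ ≤ (2 : ℝ) ^ (-(k : ℤ)) := by
      have h1 : (2 : ℤ) ^ k ∣ 2 ^ (2 * n + 2) * c :=
        Dvd.dvd.mul_right (pow_dvd_pow 2 hk) c
      have := (dvd_iff_norm_int _ _).1 h1
      push_cast at this
      exact this
    have hx : ‖4 * (Nat.centralBinom n : ℚ_[2]) * ((fA A n : ℚ) : ℚ_[2])‖
        = ‖(2 : ℤ_[2]) ^ (s2 n + 2) * ((n : ℤ_[2]) - α)‖ := by
      have h2' : ‖(2 : ℚ_[2])‖ = (2 : ℝ)⁻¹ := by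
        have := Padic.norm_p (p := 2)
        exact_mod_cast this
      have h2'' : ‖(2 : ℤ_[2])‖ = (2 : ℝ)⁻¹ := by
        have := PadicInt.norm_p (p := 2)
        exact_mod_cast this
      have hcb := norm_nat (Nat.centralBinom n) (s2 n) (Nat.centralBinom_ne_zero n) (hd1 n)
      rw [norm_mul, norm_mul, hcb, norm_mul, norm_pow, h2'', ← hα n]
      have h4 : ‖(4 : ℚ_[2])‖ = ((2 : ℝ)⁻¹) ^ 2 := by
        rw [show (4 : ℚ_[2]) = 2 ^ 2 by norm_num, norm_pow, h2']
      rw [h4, zpow_neg, zpow_natCast, pow_add, inv_pow, inv_pow]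
      ring
    rw [dvd_iff_norm_int, dvd_iff_norm, ← hx, hc']
    constructor
    · intro h
      have h3 := IsUltrametricDist.norm_add_le_max
        (4 * (Nat.centralBinom n : ℚ_[2]) * ((fA A n : ℚ) : ℚ_[2]) + (2 : ℚ_[2]) ^ (2 * n + 2) * c)
        (-((2 : ℚ_[2]) ^ (2 * n + 2) * (c : ℚ_[2])))
      rw [add_neg_cancel_right, norm_neg] at h3
      exact h3.trans (max_le h hy)
    · intro h
      exact (IsUltrametricDist.norm_add_le_max _ _).trans (max_le h hy)
  -- the residue of alpha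
  have h855 : s2 855 = 7 := by
    norm_num [s2]
  obtain ⟨t, ht⟩ : ∃ t : ℤ_[2], α - 9047 = 2 ^ 14 * t := by
    obtain ⟨hc1, hc2⟩ := hComp
    rw [← hPath 855] at hc1 hc2
    have h1 := (equiv 855 22 (by norm_num)).1 hc1
    have h2 : ¬ (2 : ℤ_[2]) ^ 23 ∣ 2 ^ (s2 855 + 2) * (((855 : ℕ) : ℤ_[2]) - α) := by
      intro h
      exact hc2 ((equiv 855 23 (by norm_num)).2 h)
    rw [h855] at h1 h2
    obtain ⟨u, hu⟩ := h1
    have two_ne : (2 : ℤ_[2]) ≠ 0 := by
      have : ((2 : ℕ) : ℤ_[2]) ≠ 0 := by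
        exact_mod_cast (two_ne_zero : (2 : ℕ) ≠ 0)
      exact_mod_cast this
    have hu2 : ((855 : ℕ) : ℤ_[2]) - α = 2 ^ 13 * u := by
      have h9 : (2 : ℤ_[2]) ^ 9 ≠ 0 := pow_ne_zero _ two_ne
      apply mul_left_cancel₀ h9
      rw [show (2 : ℤ_[2]) ^ 9 = 2 ^ (7 + 2) by norm_num, hu]
      ring
    obtain ⟨m, hm, hmu⟩ := PadicInt.exists_mem_range u
    rw [PadicInt.maximalIdeal_eq_span_p, Ideal.mem_span_singleton] at hmu
    obtain ⟨w, hw⟩ := hmu
    have hw' : u = m + 2 * w := by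
      have : u - m = 2 * w := by exact_mod_cast hw
      rw [← this]; ring
    interval_cases m
    · exfalso
      apply h2
      refine ⟨w, ?_⟩
      rw [hu2, hw']
      push_cast
      ring
    · refine ⟨-(1 + w), ?_⟩
      have h3 : α = ((855 : ℕ) : ℤ_[2]) - 2 ^ 13 * u := by
        rw [← hu2]; ring
      rw [h3, hw']
      push_cast
      ring
  have close : ∀ n e : ℕ, e ≤ 14 → (2 : ℤ_[2]) ^ e ∣ (n : ℤ_[2]) - α →
      (2 : ℤ) ^ e ∣ (n : ℤ) - 9047 := by
    intro n e he h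
    rw [← dvd_int_iff]
    have h1 : (2 : ℤ_[2]) ^ e ∣ α - 9047 := by
      rw [ht]
      exact Dvd.dvd.mul_right (pow_dvd_pow 2 he) t
    have h2 := dvd_add h h1
    have e2 : (((n : ℤ) - 9047 : ℤ) : ℤ_[2]) = (n : ℤ_[2]) - α + (α - 9047) := by
      push_cast
      ring
    rw [e2]
    exact h2
  refine ⟨α, ?_, equiv, ?_, ?_⟩
  · refine ⟨141 + 256 * t, ?_⟩
    have : α - 23 = 2 ^ 14 * t + 9024 := by
      rw [← ht]; ring
    rw [this]
    ring
  · intro n hn
    by_cases hd : (2 : ℤ_[2]) ^ (2 * n - s2 n) ∣ (n : ℤ_[2]) - α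
    · right
      refine ⟨hd, ?_⟩
      by_contra hlt
      push Not at hlt
      by_cases h14 : 14 ≤ n
      · have h3 := hd3 n
        have h4 : (2 : ℤ_[2]) ^ 14 ∣ (n : ℤ_[2]) - α :=
          (pow_dvd_pow 2 (by omega)).trans hd
        obtain ⟨c, hc⟩ := close n 14 le_rfl h4
        norm_num at hc
        omega
      · have hs : ∀ e : ℕ, e ≤ 14 → e ≤ 2 * n - s2 n → (2 : ℤ) ^ e ∣ (n : ℤ) - 9047 :=
          fun e he h => close n e he ((pow_dvd_pow 2 h).trans hd)
        have hn14 : n < 14 := by omega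
        clear hd hlt h14
        interval_cases n
        all_goals
          first
          | (have h1 := hs 3 (by norm_num) (by norm_num [s2])
             revert h1
             norm_num
             done)
          | (have h1 := hs 3 (by norm_num) (by norm_num [s2])
             obtain ⟨c, hc⟩ := h1
             norm_num at hc
             omega)
          | (have h1 := hs 11 (by norm_num) (by norm_num [s2])
             obtain ⟨c, hc⟩ := h1
             norm_num at hc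
             omega)
    · left
      have hne : (n : ℤ_[2]) - α ≠ 0 := by
        intro h
        apply hd
        rw [h]
        exact dvd_zero _
      set v := ((n : ℤ_[2]) - α).valuation with hv
      have hval : ∀ k : ℕ, (2 : ℤ_[2]) ^ k ∣ (n : ℤ_[2]) - α ↔ k ≤ v := by
        intro k
        rw [dvd_iff_norm]
        have := PadicInt.norm_le_pow_iff_le_valuation ((n : ℤ_[2]) - α) hne k
        rw [← this]
        norm_num
      have hvlt : v < 2 * n - s2 n := by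
        by_contra h
        push Not at h
        exact hd ((hval _).2 h)
      have two_ne : (2 : ℤ_[2]) ≠ 0 := by
        have : ((2 : ℕ) : ℤ_[2]) ≠ 0 := by
          exact_mod_cast (two_ne_zero : (2 : ℕ) ≠ 0)
        exact_mod_cast this
      have hk1 : (2 : ℤ) ^ (s2 n + 2 + v) ∣ L n - Cat n := by
        rw [equiv n _ (by omega), pow_add]
        exact mul_dvd_mul_left _ ((hval v).2 le_rfl)
      have hk2 : ¬ (2 : ℤ) ^ (s2 n + 2 + (v + 1)) ∣ L n - Cat n := by
        rw [equiv n _ (by omega), pow_add]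
        intro h
        have h1 := (mul_dvd_mul_iff_left (pow_ne_zero _ two_ne)).1 h
        have := (hval (v + 1)).1 h1
        omega
      have hD : L n - Cat n ≠ 0 := by
        intro h
        apply hk2
        rw [h]
        exact dvd_zero _
      refine ⟨sub_ne_zero.1 hne, hD, ?_⟩
      have hp1 := (padicValInt_dvd_iff (p := 2) (s2 n + 2 + v) (L n - Cat n)).1 (by exact_mod_cast hk1)
      have hp2 : ¬ (s2 n + 2 + (v + 1) ≤ padicValInt 2 (L n - Cat n)) := by
        intro h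
        apply hk2
        have := (padicValInt_dvd_iff (p := 2) (s2 n + 2 + (v + 1)) (L n - Cat n)).2 (Or.inr h)
        exact_mod_cast this
      rcases hp1 with h | h
      · exact absurd h hD
      · omega
  · intro n n' hn hnn' h1 h2
    have h3 : (2 : ℤ_[2]) ^ (2 * n - s2 n) ∣ (n' : ℤ_[2]) - α :=
      (pow_dvd_pow 2 (hd2 n n' hnn'.le)).trans h2
    have h4 := dvd_sub h3 h1
    have e : (n' : ℤ_[2]) - α - ((n : ℤ_[2]) - α) = (((n' : ℤ) - n : ℤ) : ℤ_[2]) := by
      push_cast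
      ring
    rw [e, dvd_int_iff] at h4
    have h5 : (2 : ℤ) ^ (2 * n - s2 n) ≤ (n' : ℤ) - n := Int.le_of_dvd (by omega) h4
    have h6 : ((2 ^ (2 * n - s2 n) : ℕ) : ℤ) ≤ ((n' - n : ℕ) : ℤ) := by
      rw [Nat.cast_sub hnn'.le]
      push_cast
      exact h5
    exact_mod_cast h6

end Pool.Agent.R964.ML.Final
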