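import Pool.Agent.R964.ML.Stm

open scoped BigOperators
open PowerSeries

set_option autoImplicit false

namespace Pool.Agent.R964.ML.G

theorem coeff_mul_zero (f h : ℚ⟦X⟧) : coeff 0 (f * h) = coeff 0 f * coeff 0 h := by
  simp [coeff_mul]

theorem coeff_mul_one (f h : ℚ⟦X⟧) :
    coeff 1 (f * h) = coeff 0 f * coeff 1 h + coeff 1 f * coeff 0 h := by
  rw [coeff_mul, Finset.Nat.sum_antidiagonal_eq_sum_range_succ (fun a b => coeff a f * coeff b h)]
  simp [Finset.sum_range_succ]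

theorem coeff_mul_two (f h : ℚ⟦X⟧) :
    coeff 2 (f * h) = coeff 0 f * coeff 2 h + coeff 1 f * coeff 1 h + coeff 2 f * coeff 0 h := by
  rw [coeff_mul, Finset.Nat.sum_antidiagonal_eq_sum_range_succ (fun a b => coeff a f * coeff b h)]
  simp [Finset.sum_range_succ]

theorem coeff_mul_three (f h : ℚ⟦X⟧) :
    coeff 3 (f * h) = coeff 0 f * coeff 3 h + coeff 1 f * coeff 2 h + coeff 2 f * coeff 1 h +
      coeff 3 f * coeff 0 h := by
  rw [coeff_mul, Finset.Nat.sum_antidiagonal_eq_sum_range_succ (fun a b => coeff a f * coeff b h)]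
  simp [Finset.sum_range_succ]

theorem conv (γ δ : ℕ → ℚ) (e : ℕ → ℤ) (m : ℕ) (h0 : γ 0 = 1) (hd0 : δ 0 = 1) (he : e 0 = 0)
    (hδ : δ (m + 1) = γ (m + 1) + 2 * ∑ j ∈ Finset.range (m + 1), (e j : ℚ) * γ j) :
    ∑ k ∈ Finset.range (m + 1 + 1), γ k * δ (m + 1 - k) =
      2 * γ (m + 1) + 2 * ∑ j ∈ Finset.range m, (e (j + 1) : ℚ) * γ (j + 1) +
      ∑ k ∈ Finset.range m, γ (k + 1) * δ (m - k) := by
  rw [Finset.sum_range_succ, Finset.sum_range_succ', Nat.sub_self, Nat.sub_zero, hd0, h0, hδ,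
    Finset.sum_range_succ' (fun j => (e j : ℚ) * γ j), he]
  have e1 : ∑ k ∈ Finset.range m, γ (k + 1) * δ (m + 1 - (k + 1)) =
      ∑ k ∈ Finset.range m, γ (k + 1) * δ (m - k) :=
    Finset.sum_congr rfl fun k _ => by rw [Nat.add_sub_add_right]
  rw [e1]
  push_cast
  ring

theorem integrality (G Gp : ℚ⟦X⟧) (e : ℕ → ℕ → ℤ) (he : ∀ m, e m 0 = 0)
    (hψ : ∀ m, coeff m Gp = coeff m G + 2 * ∑ j ∈ Finset.range m, (e m j : ℚ) * coeff j G)
    (h0 : coeff 0 G = 1) (J : ℕ → ℤ)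
    (hGG : ∀ m, coeff m (G * Gp) = (if m = 0 then 1 else 0) -
      4 * (if 4 ≤ m then (J (m - 4) : ℚ) else 0)) :
    (∀ m, 1 ≤ m → m < 4 → coeff m G = 0) ∧ ∀ m, 1 ≤ m → ∃ z : ℤ, coeff m G = 2 * z := by
  have hd0 : coeff 0 Gp = 1 := by
    have := hψ 0
    simpa [h0] using this
  have hc : ∀ m, 2 * coeff (m + 1) G +
      2 * ∑ j ∈ Finset.range m, (e (m + 1) (j + 1) : ℚ) * coeff (j + 1) G +
      ∑ k ∈ Finset.range m, coeff (k + 1) G * coeff (m - k) Gp =
      - (4 * (if 4 ≤ m + 1 then (J (m + 1 - 4) : ℚ) else 0)) := by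
    intro m
    rw [← conv (fun j => coeff j G) (fun j => coeff j Gp) (e (m + 1)) m h0 hd0 (he _)
      (hψ (m + 1))]
    have h1 := hGG (m + 1)
    rw [coeff_mul, Finset.Nat.sum_antidiagonal_eq_sum_range_succ
      (fun a b => coeff a G * coeff b Gp), if_neg (Nat.succ_ne_zero m), zero_sub] at h1
    exact h1
  have hA : ∀ m, 1 ≤ m → m < 4 → coeff m G = 0 := by
    intro m
    induction m using Nat.strong_induction_on with
    | _ m ih =>
      intro h1 h4
      obtain ⟨m, rfl⟩ : ∃ m', m = m' + 1 := ⟨m - 1, by omega⟩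
      have h2 := hc m
      rw [Finset.sum_eq_zero fun j hj => by
          rw [ih (j + 1) (by have := Finset.mem_range.1 hj; omega) (by omega)
            (by have := Finset.mem_range.1 hj; omega), mul_zero],
        Finset.sum_eq_zero fun j hj => by
          rw [ih (j + 1) (by have := Finset.mem_range.1 hj; omega) (by omega)
            (by have := Finset.mem_range.1 hj; omega), zero_mul], if_neg (by omega)] at h2
      linarith
  refine ⟨hA, ?_⟩
  intro m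
  induction m using Nat.strong_induction_on with
  | _ m ih =>
    intro h1
    obtain ⟨m, rfl⟩ : ∃ m', m = m' + 1 := ⟨m - 1, by omega⟩
    have h2 := hc m
    have hG2 : ∀ j, 1 ≤ j → j ≤ m → ∃ z : ℤ, coeff j G = 2 * z := fun j hj1 hj2 =>
      ih j (by omega) hj1
    have hP2 : ∀ j, 1 ≤ j → j ≤ m → ∃ z : ℤ, coeff j Gp = 2 * z := by
      intro j hj1 hj2
      rw [hψ j]
      obtain ⟨z, hz⟩ := hG2 j hj1 hj2
      have h3 : ∃ w : ℤ, ∑ i ∈ Finset.range j, (e j i : ℚ) * coeff i G = w := by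
        refine Finset.sum_induction _ (fun x : ℚ => ∃ w : ℤ, x = w) ?_ ⟨0, by simp⟩ ?_
        · rintro _ _ ⟨a, rfl⟩ ⟨b, rfl⟩
          exact ⟨a + b, by push_cast; ring⟩
        · intro i hi
          have hi' := Finset.mem_range.1 hi
          rcases Nat.eq_zero_or_pos i with rfl | hi0
          · exact ⟨0, by rw [he]; simp⟩
          · obtain ⟨w, hw⟩ := hG2 i hi0 (by omega)
            exact ⟨e j i * (2 * w), by rw [hw]; push_cast; ring⟩
      obtain ⟨w, hw⟩ := h3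
      exact ⟨z + w, by rw [hz, hw]; push_cast; ring⟩
    have s1 : ∃ w : ℤ, 2 * ∑ j ∈ Finset.range m, (e (m + 1) (j + 1) : ℚ) * coeff (j + 1) G =
        4 * w := by
      rw [Finset.mul_sum]
      refine Finset.sum_induction _ (fun x : ℚ => ∃ w : ℤ, x = 4 * w) ?_ ⟨0, by simp⟩ ?_
      · rintro _ _ ⟨a, rfl⟩ ⟨b, rfl⟩
        exact ⟨a + b, by push_cast; ring⟩
      · intro j hj
        have hj' := Finset.mem_range.1 hj
        obtain ⟨w, hw⟩ := hG2 (j + 1) (by omega) (by omega)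
        exact ⟨e (m + 1) (j + 1) * w, by rw [hw]; push_cast; ring⟩
    have s2 : ∃ w : ℤ, ∑ k ∈ Finset.range m, coeff (k + 1) G * coeff (m - k) Gp = 4 * w := by
      refine Finset.sum_induction _ (fun x : ℚ => ∃ w : ℤ, x = 4 * w) ?_ ⟨0, by simp⟩ ?_
      · rintro _ _ ⟨a, rfl⟩ ⟨b, rfl⟩
        exact ⟨a + b, by push_cast; ring⟩
      · intro j hj
        have hj' := Finset.mem_range.1 hj
        obtain ⟨w, hw⟩ := hG2 (j + 1) (by omega) (by omega)
        obtain ⟨v, hv⟩ := hP2 (m - j) (by omega) (by omega)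
        exact ⟨w * v, by rw [hw, hv]; push_cast; ring⟩
    obtain ⟨w1, hw1⟩ := s1
    obtain ⟨w2, hw2⟩ := s2
    rw [hw1, hw2] at h2
    split_ifs at h2 with h4
    · refine ⟨-J (m + 1 - 4) - w1 - w2, ?_⟩
      rw [Int.cast_sub, Int.cast_sub, Int.cast_neg]
      linarith
    · exact ⟨-w1 - w2, by push_cast; linarith⟩

theorem main : S_CFE → S_HOM → S_FE → S_G := by
  rintro ⟨a, ha⟩ ⟨⟨ρ, hρ⟩, ⟨ψ, hψ⟩⟩ hFE
  have hfe := hFE a ρ ψ ha hρ hψ
  obtain ⟨ha0, _, haF⟩ := ha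
  obtain ⟨hρX, hρC, hρe, hρo⟩ := hρ
  obtain ⟨hψX, hψC, e, he0, hψe⟩ := hψ
  have hρinj : ∀ f h : ℚ⟦X⟧, ρ f = ρ h → f = h := by
    intro f h hfh
    ext n
    have h1 := hρe f n
    rw [hfh, hρe] at h1
    have h2 : ((-1 / 4 : ℚ)) ^ n ≠ 0 := pow_ne_zero _ (by norm_num)
    exact (mul_left_cancel₀ h2 h1).symm
  have h2c : (C (2 : ℚ) : ℚ⟦X⟧) = 2 := rfl
  set k : ℚ⟦X⟧ := -2 * ρ (a 0) with hk
  -- relations
  have r1 : ρ F * (2 + k) = 2 := by
    have h1 := congrArg ρ haF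
    rw [map_mul, map_sub, map_one] at h1
    rw [hk]
    linear_combination 2 * h1
  have r2 : (1 + k) * (1 + ψ k) * (1 + 2 * X) = (1 + X) ^ 2 := by
    have h1 : ψ k = -2 * ψ (ρ (a 0)) := by
      rw [hk, map_mul, map_neg, map_ofNat]
    rw [h1, hk]
    linear_combination hfe
  have r3 : ρ F * (1 + k) = 2 - ρ F := by linear_combination r1
  -- the series G
  have hq : constantCoeff (1 + X ^ 2 : ℚ⟦X⟧) ≠ 0 := by simp
  set q : ℚ⟦X⟧ := (1 + X ^ 2)⁻¹ with hqdef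
  have hqq : (1 + X ^ 2) * q = 1 := PowerSeries.mul_inv_cancel _ hq
  set G : ℚ⟦X⟧ := (1 + k) ^ 2 * q with hG
  have g1 : G * (1 + X ^ 2) = (1 + k) ^ 2 := by
    rw [hG]
    linear_combination (1 + k) ^ 2 * hqq
  have g2 : ψ G * (1 + 4 * X + 5 * X ^ 2) = (1 + ψ k) ^ 2 * (1 + 2 * X) ^ 2 := by
    have h1 := congrArg ψ g1
    rw [map_mul, map_add, map_pow, map_pow, map_add, map_one] at h1
    linear_combination (1 + 2 * X) ^ 2 * h1 - ψ G * (ψ X * (1 + 2 * X) + X) * hψX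
  have g3 : G * ψ G * ((1 + X ^ 2) * (1 + 4 * X + 5 * X ^ 2)) = (1 + X) ^ 4 := by
    have h1 : G * ψ G * ((1 + X ^ 2) * (1 + 4 * X + 5 * X ^ 2)) =
        (G * (1 + X ^ 2)) * (ψ G * (1 + 4 * X + 5 * X ^ 2)) := by ring
    rw [h1, g1, g2]
    linear_combination ((1 + k) * (1 + ψ k) * (1 + 2 * X) + (1 + X) ^ 2) * r2
  -- integral inverse
  let Dz : ℤ⟦X⟧ := (1 + X ^ 2) * (1 + 4 * X + 5 * X ^ 2)
  have hDz : constantCoeff Dz = ((1 : ℤˣ) : ℤ) := by simp [Dz]
  let Iz : ℤ⟦X⟧ := PowerSeries.invOfUnit Dz 1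
  have hDI : Dz * Iz = 1 := PowerSeries.mul_invOfUnit Dz 1 hDz
  set I : ℚ⟦X⟧ := PowerSeries.map (Int.castRingHom ℚ) Iz with hI
  have hDQ : ((1 + X ^ 2) * (1 + 4 * X + 5 * X ^ 2) : ℚ⟦X⟧) * I = 1 := by
    have h1 := congrArg (PowerSeries.map (Int.castRingHom ℚ)) hDI
    rw [map_mul, map_one] at h1
    have h2 : PowerSeries.map (Int.castRingHom ℚ) Dz =
        ((1 + X ^ 2) * (1 + 4 * X + 5 * X ^ 2) : ℚ⟦X⟧) := by
      have m4 : PowerSeries.map (Int.castRingHom ℚ) (4 : ℤ⟦X⟧) = 4 := map_ofNat _ 4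
      have m5 : PowerSeries.map (Int.castRingHom ℚ) (5 : ℤ⟦X⟧) = 5 := map_ofNat _ 5
      simp only [Dz, map_mul, map_add, map_one, map_pow, PowerSeries.map_X, m4, m5]
    rw [h2] at h1
    exact h1
  have g4 : G * ψ G = 1 - 4 * (X ^ 4 * I) := by
    linear_combination I * g3 - (G * ψ G) * hDQ + hDQ - hDQ + hDQ
  have h0 : coeff 0 G = 1 := by
    have c1 : constantCoeff (ρ (a 0)) = 0 := by
      have := hρe (a 0) 0
      rw [mul_zero, coeff_zero_eq_constantCoeff_apply, coeff_zero_eq_constantCoeff_apply,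
        ha0 0] at this
      simpa using this
    have c2 : constantCoeff k = 0 := by
      rw [hk, map_mul, c1, mul_zero]
    have c3 : constantCoeff q = 1 := by
      have := congrArg constantCoeff hqq
      simpa using this
    rw [coeff_zero_eq_constantCoeff_apply, hG, map_mul, map_pow, map_add, c2, c3]
    simp
  obtain ⟨hA, hB⟩ := integrality G (ψ G) e he0 (fun m => hψe G m) h0 (fun m => coeff m Iz) (by
    intro m
    have h4 : (4 : ℚ⟦X⟧) = C 4 := rfl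
    rw [g4, map_sub, coeff_one, h4, coeff_C_mul, coeff_X_pow_mul', hI]
    simp only [coeff_map]
    congr 2)
  choose z hz using hB
  -- odd coefficients vanish is not needed: the series H
  let y : ℕ → ℤ := fun n => if h : 1 ≤ 2 * n then (-1) ^ n * z (2 * n) h else 0
  have hH : ∀ n, coeff n (1 + 2 * PowerSeries.mk fun k => (4 : ℚ) ^ k * (y k : ℚ)) =
      (-4) ^ n * coeff (2 * n) G := by
    intro n
    rw [map_add, coeff_one, ← h2c, coeff_C_mul, coeff_mk]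
    rcases Nat.eq_zero_or_pos n with rfl | hn
    · simp [y, h0]
    · have h1 : 1 ≤ 2 * n := by omega
      simp only [y, dif_pos h1]
      rw [if_neg (by omega), hz (2 * n) h1]
      have h3 : (-4 : ℚ) ^ n = (-1) ^ n * 4 ^ n := by
        rw [← mul_pow]
        norm_num
      rw [h3]
      push_cast
      ring
  -- G has only even powers
  have hodd : ∀ n, coeff (2 * n + 1) G = 0 := by
    -- G = ρ of a series
    have hr : ∃ f : ℚ⟦X⟧, ρ f = G := by
      have hq' : constantCoeff (1 - 4 * X : ℚ⟦X⟧) ≠ 0 := by simp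
      refine ⟨(1 - 2 * a 0) ^ 2 * (1 - 4 * X)⁻¹, ?_⟩
      have h1 : (1 - 4 * X : ℚ⟦X⟧) * (1 - 4 * X)⁻¹ = 1 := PowerSeries.mul_inv_cancel _ hq'
      have h2 := congrArg ρ h1
      have h3 : ρ (1 - 4 * X) = 1 + X ^ 2 := by
        rw [map_sub, map_one, map_mul, hρX, map_ofNat]
        have : (C (-1 / 4 : ℚ) : ℚ⟦X⟧) * 4 = -1 := by
          have h4 : (4 : ℚ⟦X⟧) = C 4 := rfl
          rw [h4, ← map_mul]
          norm_num
        linear_combination (-X ^ 2) * this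
      rw [map_mul, h3, map_one] at h2
      rw [map_mul, map_pow, map_sub, map_one, map_mul, map_ofNat, hG, hk]
      have h5 : ρ ((1 - 4 * X)⁻¹) = q := by
        linear_combination q * h2 - ρ ((1 - 4 * X)⁻¹) * hqq
      rw [h5]
      ring
    obtain ⟨f, hf⟩ := hr
    intro n
    rw [← hf]
    exact hρo f n
  have hρH : ρ (1 + 2 * PowerSeries.mk fun k => (4 : ℚ) ^ k * (y k : ℚ)) = G := by
    ext n
    rcases Nat.even_or_odd' n with ⟨m, rfl | rfl⟩
    · rw [hρe, hH, ← mul_assoc, ← mul_pow]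
      norm_num
    · rw [hρo, hodd]
  have hmain : (2 - F) ^ 2 = F ^ 2 * (1 - 4 * X) *
      (1 + 2 * PowerSeries.mk fun k => (4 : ℚ) ^ k * (y k : ℚ)) := by
    apply hρinj
    have h3 : ρ (1 - 4 * X) = 1 + X ^ 2 := by
      rw [map_sub, map_one, map_mul, hρX, map_ofNat]
      have : (C (-1 / 4 : ℚ) : ℚ⟦X⟧) * 4 = -1 := by
        have h4 : (4 : ℚ⟦X⟧) = C 4 := rfl
        rw [h4, ← map_mul]
        norm_num
      linear_combination (-X ^ 2) * this
    rw [map_mul, map_mul, map_pow, map_pow, map_sub, map_ofNat, h3, hρH]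
    linear_combination -(ρ F * (1 + k) + 2 - ρ F) * r3 - (ρ F) ^ 2 * g1
  have hy0 : y 0 = 0 := by simp [y]
  have hy1 : y 1 = 0 := by
    have h1 := hA 2 (by norm_num) (by norm_num)
    have h2 := hz 2 (by norm_num)
    rw [h1] at h2
    have h3 : z 2 (by norm_num) = 0 := by
      have : (z 2 (by norm_num) : ℚ) = 0 := by linarith
      exact_mod_cast this
    simp [y, h3]
  have f0 : coeff 0 F = 1 := by rw [F, coeff_mk]; simp [N]
  have f1 : coeff 1 F = 1 := by rw [F, coeff_mk]; norm_num [N]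
  have f2 : coeff 2 F = 10 := by rw [F, coeff_mk]; norm_num [N]
  have f3 : coeff 3 F = 325 := by rw [F, coeff_mk]; norm_num [N]
  have u0 : coeff 0 (2 - F) = 1 := by
    rw [map_sub, ← h2c, coeff_C, f0]; norm_num
  have u1 : coeff 1 (2 - F) = -1 := by
    rw [map_sub, ← h2c, coeff_C, f1]; norm_num
  have u2 : coeff 2 (2 - F) = -10 := by
    rw [map_sub, ← h2c, coeff_C, f2]; norm_num
  have u3 : coeff 3 (2 - F) = -325 := by
    rw [map_sub, ← h2c, coeff_C, f3]; norm_num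
  have h4c : (C (4 : ℚ) : ℚ⟦X⟧) = 4 := rfl
  have x0 : coeff 0 (1 - 4 * X : ℚ⟦X⟧) = 1 := by
    rw [map_sub, ← h4c, coeff_C_mul, coeff_one, coeff_X]; norm_num
  have x1 : coeff 1 (1 - 4 * X : ℚ⟦X⟧) = -4 := by
    rw [map_sub, ← h4c, coeff_C_mul, coeff_one, coeff_X]; norm_num
  have x2 : coeff 2 (1 - 4 * X : ℚ⟦X⟧) = 0 := by
    rw [map_sub, ← h4c, coeff_C_mul, coeff_one, coeff_X]; norm_num
  have x3 : coeff 3 (1 - 4 * X : ℚ⟦X⟧) = 0 := by
    rw [map_sub, ← h4c, coeff_C_mul, coeff_one, coeff_X]; norm_num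
  set Hs : ℚ⟦X⟧ := 1 + 2 * PowerSeries.mk fun k => (4 : ℚ) ^ k * (y k : ℚ) with hHs
  have w0 : coeff 0 Hs = 1 := by
    rw [hHs, map_add, coeff_one, ← h2c, coeff_C_mul, coeff_mk, hy0]; norm_num
  have w1 : coeff 1 Hs = 0 := by
    rw [hHs, map_add, coeff_one, ← h2c, coeff_C_mul, coeff_mk, hy1]; norm_num
  have w2 : coeff 2 Hs = 32 * y 2 := by
    rw [hHs, map_add, coeff_one, ← h2c, coeff_C_mul, coeff_mk]; norm_num; ring
  have w3 : coeff 3 Hs = 128 * y 3 := by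
    rw [hHs, map_add, coeff_one, ← h2c, coeff_C_mul, coeff_mk]; norm_num; ring
  have m2 := congrArg (coeff 2) hmain
  have m3 := congrArg (coeff 3) hmain
  rw [pow_two, pow_two] at m2 m3
  simp only [coeff_mul_two, coeff_mul_one, coeff_mul_zero, coeff_mul_three, f0, f1, f2, f3, u0, u1,
    u2, u3, x0, x1, x2, x3, w0, w1, w2, w3] at m2 m3
  have hy2 : (y 2 : ℚ) = -1 := by linarith
  have hy3 : (y 3 : ℚ) = -10 := by rw [hy2] at m3; linarith
  refine ⟨y, hy0, hy1, ?_, ?_, hmain⟩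
  · exact_mod_cast hy2
  · exact_mod_cast hy3

end Pool.Agent.R964.ML.G
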