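import Pool.Agent.R964.ML.Stm

/-! (HOM): the substitution homomorphisms `-X²/4` and `X / (1 + 2 X)`. -/

open scoped BigOperators
open PowerSeries

set_option autoImplicit false

namespace Pool.Agent.R964.ML.Hom

/-! ### `ρ` -/

theorem hasSubst_sq : HasSubst (X ^ 2 : ℚ⟦X⟧) := HasSubst.X_pow two_ne_zero

/-- substitution of `-X²/4` -/
noncomputable def rho : ℚ⟦X⟧ →+* ℚ⟦X⟧ :=
  (substAlgHom (R := ℚ) hasSubst_sq).toRingHom.comp (rescale (-1 / 4 : ℚ))

theorem rho_apply (f : ℚ⟦X⟧) : rho f = subst (X ^ 2 : ℚ⟦X⟧) (rescale (-1 / 4 : ℚ) f) := by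
  show substAlgHom (R := ℚ) hasSubst_sq (rescale (-1 / 4 : ℚ) f) = _
  rw [coe_substAlgHom]

theorem rho_even (f : ℚ⟦X⟧) (n : ℕ) : coeff (2 * n) (rho f) = (-1 / 4) ^ n * coeff n f := by
  rw [rho_apply, coeff_subst_X_pow two_ne_zero]
  simp [coeff_rescale]

theorem rho_odd (f : ℚ⟦X⟧) (n : ℕ) : coeff (2 * n + 1) (rho f) = 0 := by
  rw [rho_apply, coeff_subst_X_pow two_ne_zero, if_neg (by omega)]

theorem rho_X : rho X = C (-1 / 4) * X ^ 2 := by
  ext m
  rcases Nat.even_or_odd' m with ⟨n, rfl | rfl⟩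
  · rw [rho_even, coeff_C_mul, coeff_X_pow, coeff_X]
    by_cases h : n = 1
    · subst h; simp
    · have h' : ¬ (2 * n = 2) := by omega
      simp [h]
  · rw [rho_odd, coeff_C_mul, coeff_X_pow, if_neg (by omega), mul_zero]

theorem rho_C (c : ℚ) : rho (C c) = C c := by
  ext m
  rcases Nat.even_or_odd' m with ⟨n, rfl | rfl⟩
  · rw [rho_even, coeff_C, coeff_C]
    by_cases h : n = 0
    · subst h; simp
    · simp [h]
  · rw [rho_odd, coeff_C, if_neg (by omega)]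

theorem isRho : IsRho rho := ⟨rho_X, rho_C, rho_even, rho_odd⟩

/-! ### `ψ` -/

/-- `1 / (1 + 2 X)` over the integers -/
noncomputable def qZ : ℤ⟦X⟧ := PowerSeries.mk fun n => (-2 : ℤ) ^ n

theorem qZ_mul : qZ * (1 + 2 * X) = 1 := by
  ext m
  have h2 : qZ * (1 + 2 * X) = qZ + C 2 * (qZ * X) := by
    have : (C 2 : ℤ⟦X⟧) = 2 := map_ofNat C 2
    rw [this]; ring
  rw [h2, map_add, coeff_C_mul]
  cases m with
  | zero => simp [qZ]
  | succ m =>
    rw [coeff_succ_mul_X, coeff_one, if_neg (Nat.succ_ne_zero m)]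
    simp only [qZ, coeff_mk]
    ring

theorem dvd_mul {f g : ℤ⟦X⟧} (hf : ∀ i, (2 : ℤ) ^ i ∣ coeff i f)
    (hg : ∀ i, (2 : ℤ) ^ i ∣ coeff i g) (i : ℕ) : (2 : ℤ) ^ i ∣ coeff i (f * g) := by
  rw [coeff_mul]
  refine Finset.dvd_sum fun p hp => ?_
  rw [← Finset.HasAntidiagonal.mem_antidiagonal.1 hp, pow_add]
  exact mul_dvd_mul (hf _) (hg _)

theorem dvd_pow (j : ℕ) (i : ℕ) : (2 : ℤ) ^ i ∣ coeff i (qZ ^ j) := by
  induction j generalizing i with
  | zero =>
    rw [pow_zero, coeff_one]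
    split_ifs with h
    · subst h; simp
    · exact dvd_zero _
  | succ j ih =>
    rw [pow_succ]
    refine dvd_mul ih (fun i => ?_) i
    rw [qZ, coeff_mk, neg_pow]
    exact Dvd.intro_left _ rfl

/-- `1 / (1 + 2 X)` -/
noncomputable def q : ℚ⟦X⟧ := map (Int.castRingHom ℚ) qZ

theorem q_mul : q * (1 + 2 * X) = 1 := by
  have h := congrArg (map (Int.castRingHom ℚ)) qZ_mul
  have h2 : map (Int.castRingHom ℚ) (2 : ℤ⟦X⟧) = 2 := map_ofNat _ 2
  rw [map_mul, map_add, map_mul, map_one, h2, map_X] at h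
  exact h

theorem coeff_q_pow (j i : ℕ) : coeff i (q ^ j) = ((coeff i (qZ ^ j) : ℤ) : ℚ) := by
  rw [q, ← map_pow, coeff_map]
  rfl

theorem coeff_zero_pow (j : ℕ) : coeff 0 (qZ ^ j) = 1 := by
  rw [coeff_zero_eq_constantCoeff_apply, map_pow]
  have : constantCoeff qZ = 1 := by
    rw [← coeff_zero_eq_constantCoeff_apply]; simp [qZ]
  rw [this, one_pow]

/-- the entries -/
noncomputable def e (m j : ℕ) : ℤ := coeff (m - j) (qZ ^ j) / 2

theorem e_zero (m : ℕ) : e m 0 = 0 := by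
  unfold e
  rw [pow_zero, coeff_one]
  split_ifs <;> rfl

theorem two_e {m j : ℕ} (h : j < m) : (coeff (m - j) (qZ ^ j) : ℤ) = 2 * e m j := by
  unfold e
  rw [Int.mul_ediv_cancel']
  refine dvd_trans ?_ (dvd_pow j (m - j))
  exact dvd_pow_self 2 (by omega)

theorem hasSubst_a : HasSubst (X * q : ℚ⟦X⟧) := HasSubst.of_constantCoeff_zero' (by simp)

/-- substitution of `X / (1 + 2 X)` -/
noncomputable def psi : ℚ⟦X⟧ →+* ℚ⟦X⟧ := (substAlgHom (R := ℚ) hasSubst_a).toRingHom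

theorem psi_apply (f : ℚ⟦X⟧) : psi f = subst (X * q : ℚ⟦X⟧) f := by
  show substAlgHom (R := ℚ) hasSubst_a f = _
  rw [coe_substAlgHom]

theorem coeff_a_pow (d m : ℕ) :
    coeff m ((X * q : ℚ⟦X⟧) ^ d) = if d ≤ m then coeff (m - d) (q ^ d) else 0 := by
  rw [mul_pow, coeff_X_pow_mul']

theorem coeff_psi (f : ℚ⟦X⟧) (m : ℕ) :
    coeff m (psi f) = ∑ d ∈ Finset.range (m + 1), coeff d f * coeff (m - d) (q ^ d) := by
  rw [psi_apply, coeff_subst' hasSubst_a]
  rw [finsum_eq_sum_of_support_subset (s := Finset.range (m + 1))]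
  · refine Finset.sum_congr rfl fun d hd => ?_
    rw [coeff_a_pow, if_pos (Nat.lt_succ_iff.1 (Finset.mem_range.1 hd)), smul_eq_mul]
  · intro d hd
    rw [Function.mem_support, coeff_a_pow] at hd
    rw [Finset.coe_range, Set.mem_Iio]
    by_contra hcon
    apply hd
    rw [if_neg (by omega), smul_zero]

theorem psi_coeff (f : ℚ⟦X⟧) (m : ℕ) :
    coeff m (psi f) = coeff m f + 2 * ∑ j ∈ Finset.range m, (e m j : ℚ) * coeff j f := by
  rw [coeff_psi, Finset.sum_range_succ, Nat.sub_self, coeff_q_pow, coeff_zero_pow, add_comm,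
    Finset.mul_sum]
  congr 1
  · push_cast; ring
  · refine Finset.sum_congr rfl fun d hd => ?_
    rw [coeff_q_pow, two_e (Finset.mem_range.1 hd)]
    push_cast; ring

theorem psi_X : psi X * (1 + 2 * X) = X := by
  have h : psi X = X * q := by
    rw [psi_apply]; exact subst_X hasSubst_a
  rw [h, mul_assoc, q_mul, mul_one]

theorem psi_C (c : ℚ) : psi (C c) = C c := by
  rw [psi_apply]; exact subst_C c

theorem isPsi : IsPsi psi := ⟨psi_X, psi_C, e, e_zero, psi_coeff⟩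

/-- Piece (HOM). -/
theorem main : S_HOM := ⟨⟨rho, isRho⟩, psi, isPsi⟩

end Pool.Agent.R964.ML.Hom
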