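import Pool.Agent.R964.ML.Stm

set_option autoImplicit false

namespace Pool.Agent.R964.ML.Iso

open Finset

theorem norm_nat (n : ℕ) (hn : n ≠ 0) : ‖(n : ℚ_[2])‖ = (2 : ℝ) ^ (-(padicValNat 2 n : ℤ)) := by
  rw [Padic.norm_eq_zpow_neg_valuation (by exact_mod_cast hn), Padic.valuation_natCast]
  norm_num

theorem norm_nat_le (n : ℕ) : ‖(n : ℚ_[2])‖ ≤ 1 := by
  have := Padic.norm_int_le_one (p := 2) (n : ℤ)
  exact_mod_cast this

theorem norm_ge (i : ℕ) (hi : i ≠ 0) : (2 : ℝ) ^ (-(Nat.log 2 i : ℤ)) ≤ ‖(i : ℚ_[2])‖ := by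
  rw [norm_nat i hi]
  apply zpow_le_zpow_right₀ (by norm_num)
  have := padicValNat_le_nat_log (p := 2) i
  omega

theorem choose_small (d i m : ℕ) (hi : 1 ≤ i) (him : i ≤ m) :
    ‖((d.choose i : ℕ) : ℚ_[2])‖ ≤ ‖(d : ℚ_[2])‖ * (2 : ℝ) ^ (Nat.log 2 m : ℤ) := by
  rcases Nat.eq_zero_or_pos d with rfl | hd
  · obtain ⟨j, rfl⟩ : ∃ j, i = j + 1 := ⟨i - 1, by omega⟩
    simp
  · obtain ⟨j, rfl⟩ : ∃ j, i = j + 1 := ⟨i - 1, by omega⟩
    obtain ⟨e, rfl⟩ : ∃ e, d = e + 1 := ⟨d - 1, by omega⟩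
    have h1 := Nat.add_one_mul_choose_eq e j
    have h2 : ((e + 1 : ℕ) : ℚ_[2]) * ((e.choose j : ℕ) : ℚ_[2]) =
        (((e + 1).choose (j + 1) : ℕ) : ℚ_[2]) * ((j + 1 : ℕ) : ℚ_[2]) := by
      exact_mod_cast h1
    have h3 := congrArg norm h2
    rw [norm_mul, norm_mul] at h3
    have h4 := norm_nat_le (e.choose j)
    have h5 := norm_ge (j + 1) (Nat.succ_ne_zero j)
    have h6 : (2 : ℝ) ^ (-(Nat.log 2 m : ℤ)) ≤ ‖((j + 1 : ℕ) : ℚ_[2])‖ := by
      refine le_trans ?_ h5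
      apply zpow_le_zpow_right₀ (by norm_num)
      have := Nat.log_mono_right (b := 2) him
      omega
    have h7 : ‖(((e + 1).choose (j + 1) : ℕ) : ℚ_[2])‖ * (2 : ℝ) ^ (-(Nat.log 2 m : ℤ)) ≤
        ‖((e + 1 : ℕ) : ℚ_[2])‖ := by
      calc _ ≤ ‖(((e + 1).choose (j + 1) : ℕ) : ℚ_[2])‖ * ‖((j + 1 : ℕ) : ℚ_[2])‖ :=
            mul_le_mul_of_nonneg_left h6 (norm_nonneg _)
        _ = ‖((e + 1 : ℕ) : ℚ_[2])‖ * ‖((e.choose j : ℕ) : ℚ_[2])‖ := h3.symm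
        _ ≤ ‖((e + 1 : ℕ) : ℚ_[2])‖ * 1 := mul_le_mul_of_nonneg_left h4 (norm_nonneg _)
        _ = _ := mul_one _
    have h8 : (0 : ℝ) < (2 : ℝ) ^ (Nat.log 2 m : ℤ) := by positivity
    rw [zpow_neg, ← div_eq_mul_inv, div_le_iff₀ h8] at h7
    exact h7

theorem diff_small (n' d m : ℕ) (hm : 1 ≤ m) :
    ‖(((n' + d).choose m : ℕ) : ℚ_[2]) - ((n'.choose m : ℕ) : ℚ_[2])‖ ≤
      ‖(d : ℚ_[2])‖ * (2 : ℝ) ^ (Nat.log 2 m : ℤ) := by
  have h1 : (n' + d).choose m = ∑ ij ∈ Finset.HasAntidiagonal.antidiagonal m,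
      n'.choose ij.1 * d.choose ij.2 := Nat.add_choose_eq n' d m
  have h2 : (m, 0) ∈ Finset.HasAntidiagonal.antidiagonal m := by
    rw [Finset.HasAntidiagonal.mem_antidiagonal]
    simp
  have h3 : (((n' + d).choose m : ℕ) : ℚ_[2]) - ((n'.choose m : ℕ) : ℚ_[2]) =
      ∑ ij ∈ (Finset.HasAntidiagonal.antidiagonal m).erase (m, 0),
        ((n'.choose ij.1 : ℕ) : ℚ_[2]) * ((d.choose ij.2 : ℕ) : ℚ_[2]) := by
    rw [h1, ← Finset.add_sum_erase _ _ h2]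
    push_cast
    simp
  rw [h3]
  refine IsUltrametricDist.norm_sum_le_of_forall_le_of_nonneg (by positivity) fun ij hij => ?_
  obtain ⟨h4, h5⟩ := Finset.mem_erase.1 hij
  rw [Finset.HasAntidiagonal.mem_antidiagonal] at h5
  have h6 : 1 ≤ ij.2 := by
    rcases Nat.eq_zero_or_pos ij.2 with h | h
    · exfalso
      apply h4
      ext
      · simp only
        omega
      · exact h
    · exact h
  rw [norm_mul]
  calc _ ≤ 1 * ‖((d.choose ij.2 : ℕ) : ℚ_[2])‖ :=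
        mul_le_mul_of_nonneg_right (norm_nat_le _) (norm_nonneg _)
    _ = ‖((d.choose ij.2 : ℕ) : ℚ_[2])‖ := one_mul _
    _ ≤ _ := choose_small d ij.2 m h6 (by omega)

theorem two_log (m : ℕ) : 2 * Nat.log 2 m ≤ m := by
  rcases Nat.eq_zero_or_pos m with rfl | hm
  · simp
  · have h1 := Nat.pow_log_le_self 2 hm.ne'
    have h2 : ∀ k : ℕ, 2 * k ≤ 2 ^ k := by
      intro k
      induction k with
      | zero => norm_num
      | succ k ih =>
        have := Nat.lt_two_pow_self (n := k)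
        rw [pow_succ]
        omega
    exact (h2 _).trans h1

theorem exps (m : ℕ) (hm : 2 ≤ m) :
    padicValNat 2 (Nat.centralBinom m) + Nat.log 2 m + 4 ≤ (3 * m + 6) / 2 := by
  have h1 : padicValNat 2 (Nat.centralBinom m) ≤ Nat.log 2 m + 1 := by
    have h2 := Nat.factorization_choose_le_log (p := 2) (n := 2 * m) (k := m)
    rw [← Nat.centralBinom_eq_two_mul_choose, Nat.factorization_def _ Nat.prime_two] at h2
    rw [show Nat.log 2 (2 * m) = Nat.log 2 m + 1 by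
      rw [mul_comm]; exact Nat.log_mul_base (by norm_num) (by omega)] at h2
    exact h2
  rcases Nat.lt_or_ge m 4 with h | h
  · have h3 : m = 2 ∨ m = 3 := by omega
    rcases h3 with rfl | rfl
    · have e1 : Nat.centralBinom 2 = 6 := by decide
      have e2 : Nat.log 2 2 = 1 := by decide
      have e3 : padicValNat 2 6 ≤ 1 := by
        by_contra hc
        push Not at hc
        have h5 : 2 ^ padicValNat 2 6 ∣ 6 := pow_padicValNat_dvd
        have h6 : 2 ^ 2 ∣ 6 := (pow_dvd_pow 2 hc).trans h5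
        revert h6
        decide
      rw [e1, e2]
      omega
    · have e2 : Nat.log 2 3 = 1 := by decide
      rw [e2] at h1 ⊢
      omega
  · have := two_log m
    omega

/-- the terms -/
noncomputable def T (A : ℕ → ℤ) (m n : ℕ) : ℚ_[2] :=
  (A m : ℚ_[2]) * ((n.choose m : ℕ) : ℚ_[2]) / (8 * ((Nat.centralBinom m : ℕ) : ℚ_[2]))

theorem fA_eq (A : ℕ → ℤ) (n K : ℕ) (hK : n + 1 ≤ K) :
    ((fA A n : ℚ) : ℚ_[2]) = ∑ m ∈ range K, T A m n := by
  unfold fA T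
  push_cast
  refine Finset.sum_subset (Finset.range_mono hK) fun m _ hm => ?_
  rw [Finset.mem_range, not_lt] at hm
  rw [Nat.choose_eq_zero_of_lt (by omega)]
  simp

theorem term_small (A : ℕ → ℤ) (hA : ∀ m, (2 : ℤ) ^ ((3 * m + 6) / 2) ∣ A m) (n' d m : ℕ)
    (hm : 2 ≤ m) : ‖T A m (n' + d) - T A m n'‖ ≤ ‖(d : ℚ_[2])‖ / 2 := by
  have hcb : Nat.centralBinom m ≠ 0 := (Nat.centralBinom_pos m).ne'
  have e1 : T A m (n' + d) - T A m n' = (A m : ℚ_[2]) *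
      ((((n' + d).choose m : ℕ) : ℚ_[2]) - ((n'.choose m : ℕ) : ℚ_[2])) /
        (8 * ((Nat.centralBinom m : ℕ) : ℚ_[2])) := by
    unfold T
    ring
  have h8 : ‖(8 : ℚ_[2])‖ = (2 : ℝ) ^ (-(3 : ℤ)) := by
    have e8 : (8 : ℚ_[2]) = ((2 : ℕ) : ℚ_[2]) ^ 3 := by norm_num
    rw [e8, norm_pow, Padic.norm_p]
    norm_num
  have hAm : ‖(A m : ℚ_[2])‖ ≤ (2 : ℝ) ^ (-(((3 * m + 6) / 2 : ℕ) : ℤ)) := by
    have := (Padic.norm_int_le_pow_iff_dvd (p := 2) (A m) ((3 * m + 6) / 2)).2 (by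
      exact_mod_cast hA m)
    exact_mod_cast this
  have hC := diff_small n' d m (by omega)
  have hcbn := norm_nat _ hcb
  rw [e1, norm_div, norm_mul, norm_mul, h8, hcbn]
  have hden : (0 : ℝ) < (2 : ℝ) ^ (-(3 : ℤ)) *
      (2 : ℝ) ^ (-(padicValNat 2 (Nat.centralBinom m) : ℤ)) := by positivity
  rw [div_le_iff₀ hden]
  have hexp := exps m hm
  calc ‖(A m : ℚ_[2])‖ * ‖(((n' + d).choose m : ℕ) : ℚ_[2]) - ((n'.choose m : ℕ) : ℚ_[2])‖
      ≤ (2 : ℝ) ^ (-(((3 * m + 6) / 2 : ℕ) : ℤ)) *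
        (‖(d : ℚ_[2])‖ * (2 : ℝ) ^ (Nat.log 2 m : ℤ)) :=
        mul_le_mul hAm hC (norm_nonneg _) (by positivity)
    _ = ‖(d : ℚ_[2])‖ * (2 : ℝ) ^ ((Nat.log 2 m : ℤ) - (((3 * m + 6) / 2 : ℕ) : ℤ)) := by
        rw [sub_eq_add_neg, zpow_add₀ (by norm_num)]
        ring
    _ ≤ ‖(d : ℚ_[2])‖ * (2 : ℝ) ^ (-(1 : ℤ) + (-3 +
          -(padicValNat 2 (Nat.centralBinom m) : ℤ))) := by
        refine mul_le_mul_of_nonneg_left ?_ (norm_nonneg _)
        apply zpow_le_zpow_right₀ (by norm_num)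
        have : ((padicValNat 2 (Nat.centralBinom m) + Nat.log 2 m + 4 : ℕ) : ℤ) ≤
          (((3 * m + 6) / 2 : ℕ) : ℤ) := by exact_mod_cast hexp
        push_cast at this ⊢
        linarith
    _ = _ := by
        rw [zpow_add₀ (by norm_num), zpow_add₀ (by norm_num)]
        norm_num
        ring

theorem key (A : ℕ → ℤ) (h0 : A 0 = 8) (h1 : A 1 = 208)
    (hA : ∀ m, (2 : ℤ) ^ ((3 * m + 6) / 2) ∣ A m) (n' d : ℕ) :
    ‖((fA A (n' + d) : ℚ) : ℚ_[2]) - ((fA A n' : ℚ) : ℚ_[2])‖ = ‖(d : ℚ_[2])‖ := by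
  rcases Nat.eq_zero_or_pos d with rfl | hd
  · simp
  have hd0 : (0 : ℝ) < ‖(d : ℚ_[2])‖ := by
    rw [norm_pos_iff]
    exact_mod_cast hd.ne'
  rw [fA_eq A (n' + d) (n' + d + 2) (by omega), fA_eq A n' (n' + d + 2) (by omega),
    ← Finset.sum_sub_distrib]
  rw [Finset.sum_range_succ', Finset.sum_range_succ']
  have e0 : T A 0 (n' + d) - T A 0 n' = 0 := by
    unfold T
    simp
  have e1 : T A (0 + 1) (n' + d) - T A (0 + 1) n' = 13 * (d : ℚ_[2]) := by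
    unfold T
    rw [zero_add, h1]
    simp only [Nat.choose_one_right]
    have : Nat.centralBinom 1 = 2 := by decide
    rw [this]
    push_cast
    ring
  rw [e0, e1, add_zero]
  have h13 : ‖(13 : ℚ_[2]) * (d : ℚ_[2])‖ = ‖(d : ℚ_[2])‖ := by
    rw [norm_mul]
    have : ‖(13 : ℚ_[2])‖ = 1 := by
      have h2 := norm_nat 13 (by norm_num)
      rw [padicValNat.eq_zero_of_not_dvd (by decide)] at h2
      simpa using h2
    rw [this, one_mul]
  have hE : ‖∑ m ∈ range (n' + d), (T A (m + 1 + 1) (n' + d) - T A (m + 1 + 1) n')‖ ≤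
      ‖(d : ℚ_[2])‖ / 2 :=
    IsUltrametricDist.norm_sum_le_of_forall_le_of_nonneg (by positivity)
      fun m _ => term_small A hA n' d (m + 1 + 1) (by omega)
  rw [IsUltrametricDist.norm_add_eq_max_of_norm_ne_norm, h13, max_eq_right]
  · linarith
  · rw [h13]
    intro h
    rw [h] at hE
    linarith

theorem main : S_ISO := by
  intro A h0 h1 hA
  refine ⟨?_, fun n n' => ?_⟩
  · have : fA A 0 = 1 := by
      unfold fA
      simp [h0]
    rw [this]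
    simp
  · rcases le_total n' n with h | h
    · obtain ⟨d, rfl⟩ := Nat.exists_eq_add_of_le h
      rw [key A h0 h1 hA]
      congr 1
      push_cast
      ring
    · obtain ⟨d, rfl⟩ := Nat.exists_eq_add_of_le h
      rw [norm_sub_rev, key A h0 h1 hA, norm_sub_rev]
      congr 1
      push_cast
      ring

end Pool.Agent.R964.ML.Iso
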