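import Pool.Agent.R964.ML.Stm

set_option autoImplicit false

namespace Pool.Agent.R964.ML.Path

open Classical in
/-- weighted number of paths from height `z` to height `0` -/
noncomputable def W (M : ℕ) (z : ℤ) : ℤ :=
  ∑ s : Fin M → Bool, if (∀ i ≤ M, 0 ≤ z + ht s i) ∧ z + ht s M = 0 then
    ∏ j : Fin M, (if s j = true then (2 * (z + ht s j) + 1) ^ 2 else 1) else 0

theorem ht_zero {M : ℕ} (s : Fin M → Bool) : ht s 0 = 0 := by
  unfold ht
  simp

/-- the first step -/
def st (b : Bool) : ℤ := if b = true then 1 else -1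

theorem ht_cons {M : ℕ} (b : Bool) (s : Fin M → Bool) (i : ℕ) :
    ht (Fin.cons b s : Fin (M + 1) → Bool) (i + 1) = st b + ht s i := by
  unfold ht
  rw [Fin.sum_univ_succ]
  simp only [Fin.val_zero, Nat.zero_lt_succ, if_true, Fin.cons_zero, Fin.val_succ, Fin.cons_succ,
    Nat.add_lt_add_iff_right]
  rfl

theorem W_neg (M : ℕ) (z : ℤ) (hz : z < 0) : W M z = 0 := by
  unfold W
  apply Finset.sum_eq_zero
  intro s _
  rw [if_neg]
  rintro ⟨h, _⟩
  have := h 0 (Nat.zero_le _)
  rw [ht_zero] at this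
  omega

theorem W_zero (z : ℤ) : W 0 z = if z = 0 then 1 else 0 := by
  unfold W
  by_cases hz : z = 0
  · subst hz
    simp [ht]
  · simp [ht, hz]

theorem W_succ (M h : ℕ) :
    W (M + 1) h = (2 * (h : ℤ) + 1) ^ 2 * W M (h + 1) + W M (h - 1) := by
  have key : ∀ (b : Bool) (s : Fin M → Bool),
      ((∀ i ≤ M + 1, 0 ≤ (h : ℤ) + ht (Fin.cons b s : Fin (M + 1) → Bool) i) ∧
        (h : ℤ) + ht (Fin.cons b s : Fin (M + 1) → Bool) (M + 1) = 0) ↔
      ((∀ i ≤ M, 0 ≤ ((h : ℤ) + st b) + ht s i) ∧ ((h : ℤ) + st b) + ht s M = 0) := by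
    intro b s
    constructor
    · rintro ⟨h1, h2⟩
      refine ⟨fun i hi => ?_, ?_⟩
      · have := h1 (i + 1) (by omega)
        rw [ht_cons] at this
        linarith
      · rw [ht_cons] at h2
        linarith
    · rintro ⟨h1, h2⟩
      refine ⟨fun i hi => ?_, ?_⟩
      · cases i with
        | zero => rw [ht_zero]; positivity
        | succ i =>
          rw [ht_cons]
          have := h1 i (by omega)
          linarith
      · rw [ht_cons]
        linarith
  have prodk : ∀ (b : Bool) (s : Fin M → Bool),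
      ∏ j : Fin (M + 1), (if (Fin.cons b s : Fin (M + 1) → Bool) j = true then
        (2 * ((h : ℤ) + ht (Fin.cons b s : Fin (M + 1) → Bool) j) + 1) ^ 2 else 1) =
      (if b = true then (2 * (h : ℤ) + 1) ^ 2 else 1) *
        ∏ j : Fin M, (if s j = true then (2 * (((h : ℤ) + st b) + ht s j) + 1) ^ 2 else 1) := by
    intro b s
    rw [Fin.prod_univ_succ]
    congr 1
    · simp [ht_zero]
    · apply Finset.prod_congr rfl
      intro j _
      rw [Fin.cons_succ, Fin.val_succ, ht_cons]
      congr 1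
      ring
  unfold W
  rw [← (Fin.consEquiv (fun _ : Fin (M + 1) => Bool)).sum_comp, Fintype.sum_prod_type,
    Fintype.sum_bool, Finset.mul_sum]
  congr 1
  · apply Finset.sum_congr rfl
    intro s _
    change (if (∀ i ≤ M + 1, 0 ≤ (h : ℤ) + ht (Fin.cons true s : Fin (M + 1) → Bool) i) ∧
        (h : ℤ) + ht (Fin.cons true s : Fin (M + 1) → Bool) (M + 1) = 0 then
      ∏ j : Fin (M + 1), (if (Fin.cons true s : Fin (M + 1) → Bool) j = true then
        (2 * ((h : ℤ) + ht (Fin.cons true s : Fin (M + 1) → Bool) j) + 1) ^ 2 else 1) else 0) = _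
    rw [prodk]
    have h1 : (h : ℤ) + st true = h + 1 := rfl
    by_cases hc : (∀ i ≤ M, 0 ≤ ((h : ℤ) + 1) + ht s i) ∧ ((h : ℤ) + 1) + ht s M = 0
    · rw [if_pos hc, if_pos ((key true s).2 (by rw [h1]; exact hc)), h1]
      simp
    · rw [if_neg hc, if_neg (fun h2 => hc (by have := (key true s).1 h2; rwa [h1] at this)), mul_zero]
  · apply Finset.sum_congr rfl
    intro s _
    change (if (∀ i ≤ M + 1, 0 ≤ (h : ℤ) + ht (Fin.cons false s : Fin (M + 1) → Bool) i) ∧
        (h : ℤ) + ht (Fin.cons false s : Fin (M + 1) → Bool) (M + 1) = 0 then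
      ∏ j : Fin (M + 1), (if (Fin.cons false s : Fin (M + 1) → Bool) j = true then
        (2 * ((h : ℤ) + ht (Fin.cons false s : Fin (M + 1) → Bool) j) + 1) ^ 2 else 1) else 0) = _
    rw [prodk]
    have h1 : (h : ℤ) + st false = h - 1 := rfl
    by_cases hc : (∀ i ≤ M, 0 ≤ ((h : ℤ) - 1) + ht s i) ∧ ((h : ℤ) - 1) + ht s M = 0
    · rw [if_pos hc, if_pos ((key false s).2 (by rw [h1]; exact hc)), h1]
      simp
    · rw [if_neg hc, if_neg (fun h2 => hc (by have := (key false s).1 h2; rwa [h1] at this))]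

theorem W_eq (M : ℕ) : ∀ h : ℕ, W M h = N M h := by
  induction M with
  | zero =>
    intro h
    rw [W_zero]
    cases h with
    | zero => simp [N]
    | succ h =>
      rw [if_neg (by push_cast; omega)]
      simp [N]
  | succ M ih =>
    intro h
    rw [W_succ]
    cases h with
    | zero =>
      have h1 := ih 1
      have h2 := W_neg M (((0 : ℕ) : ℤ) - 1) (by norm_num)
      rw [h2]
      have h3 : (((0 : ℕ) : ℤ) + 1) = ((1 : ℕ) : ℤ) := by norm_num
      rw [h3, h1]
      simp [N]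
    | succ h =>
      have h1 := ih (h + 2)
      have h2 := ih h
      have h3 : (((h + 1 : ℕ) : ℤ) + 1) = ((h + 2 : ℕ) : ℤ) := by push_cast; ring
      have h4 : (((h + 1 : ℕ) : ℤ) - 1) = ((h : ℕ) : ℤ) := by push_cast; ring
      rw [h3, h4, h1, h2]
      simp only [N]
      push_cast
      ring

theorem main : S_PATH := by
  intro n
  rw [← W_eq (2 * n) 0]
  unfold L W
  rw [Finset.sum_filter]
  apply Finset.sum_congr rfl
  intro s _
  unfold IsDyck wt
  simp

end Pool.Agent.R964.ML.Path
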