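import Mathlib

open scoped BigOperators
open PowerSeries

set_option autoImplicit false

namespace Pool.Agent.R964.ML

/-! ### Definitions of the final statement -/

/-- height after the first `i` steps (`true` is an up-step, `false` a down-step) -/
def ht {M : ℕ} (s : Fin M → Bool) (i : ℕ) : ℤ :=
  ∑ j : Fin M, if (j : ℕ) < i then (if s j = true then 1 else -1) else 0

/-- Dyck paths of semilength `n`: the heights are nonnegative and the last height is zero -/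
def IsDyck (n : ℕ) (s : Fin (2 * n) → Bool) : Prop :=
  (∀ i ≤ 2 * n, 0 ≤ ht s i) ∧ ht s (2 * n) = 0

/-- the weight: an up-step starting at height `h` has weight `(2h+1)^2`, a down-step weight `1` -/
def wt (n : ℕ) (s : Fin (2 * n) → Bool) : ℤ :=
  ∏ j : Fin (2 * n), if s j = true then (2 * ht s j + 1) ^ 2 else 1

open Classical in
/-- the Morse link numbers -/
noncomputable def L (n : ℕ) : ℤ :=
  ∑ s ∈ Finset.univ.filter (fun s : Fin (2 * n) → Bool => IsDyck n s), wt n s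

/-- the sum of the binary digits -/
def s2 (n : ℕ) : ℕ := (Nat.digits 2 n).sum

/-- the Catalan numbers -/
def Cat (n : ℕ) : ℕ := (2 * n).choose n / (n + 1)

/-- the full statement to be proved -/
def MainStm : Prop :=
  ∃ α : ℤ_[2], (64 : ℤ_[2]) ∣ α - 23 ∧
    (∀ n : ℕ, ∀ k ≤ 2 * n + 2, ((2 : ℤ) ^ k ∣ L n - Cat n) ↔
      ((2 : ℤ_[2]) ^ k ∣ 2 ^ (s2 n + 2) * ((n : ℤ_[2]) - α))) ∧
    (∀ n : ℕ, 2 ≤ n →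
      ((n : ℤ_[2]) ≠ α ∧ L n - Cat n ≠ 0 ∧
        padicValInt 2 (L n - Cat n) = s2 n + ((n : ℤ_[2]) - α).valuation + 2) ∨
      ((2 : ℤ_[2]) ^ (2 * n - s2 n) ∣ (n : ℤ_[2]) - α ∧ 9047 ≤ n)) ∧
    (∀ n n' : ℕ, 2 ≤ n → n < n' → (2 : ℤ_[2]) ^ (2 * n - s2 n) ∣ (n : ℤ_[2]) - α →
      (2 : ℤ_[2]) ^ (2 * n' - s2 n') ∣ (n' : ℤ_[2]) - α → 2 ^ (2 * n - s2 n) ≤ n' - n)

/-! ### The recursion -/

/-- `N t h`: weighted number of paths of length `t` from height `h` to height `0` which stay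
nonnegative -/
def N : ℕ → ℕ → ℕ
  | 0, 0 => 1
  | 0, _ + 1 => 0
  | t + 1, 0 => N t 1
  | t + 1, h + 1 => (2 * (h + 1) + 1) ^ 2 * N t (h + 2) + N t h

/-- (PATH) -/
def S_PATH : Prop := ∀ n : ℕ, L n = N (2 * n) 0

/-- generating function of the Morse link numbers -/
noncomputable def F : ℚ⟦X⟧ := PowerSeries.mk fun n => (N (2 * n) 0 : ℚ)

/-- generating function of the central binomial coefficients, `(1 - 4X)^(-1/2)` -/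
noncomputable def g : ℚ⟦X⟧ := PowerSeries.mk fun n => (Nat.centralBinom n : ℚ)

/-- the properties of the tails of the continued fraction -/
def Tails (a : ℕ → ℚ⟦X⟧) : Prop :=
  (∀ h, constantCoeff (a h) = 0) ∧
  (∀ h : ℕ, a h * (1 - a (h + 1)) = C ((2 * (h : ℚ) + 1) ^ 2) * X) ∧ F * (1 - a 0) = 1

/-- (CFE) the continued fraction -/
def S_CFE : Prop := ∃ a : ℕ → ℚ⟦X⟧, Tails a

/-- `ρ` is the substitution of `-X²/4` -/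
def IsRho (ρ : ℚ⟦X⟧ →+* ℚ⟦X⟧) : Prop :=
  ρ X = C (-1 / 4) * X ^ 2 ∧ (∀ c, ρ (C c) = C c) ∧
  (∀ f n, coeff (2 * n) (ρ f) = (-1 / 4) ^ n * coeff n f) ∧
  (∀ f n, coeff (2 * n + 1) (ρ f) = 0)

/-- `ψ` is the substitution of `X / (1 + 2 X)` -/
def IsPsi (ψ : ℚ⟦X⟧ →+* ℚ⟦X⟧) : Prop :=
  ψ X * (1 + 2 * X) = X ∧ (∀ c, ψ (C c) = C c) ∧
  ∃ e : ℕ → ℕ → ℤ, (∀ m, e m 0 = 0) ∧
    ∀ f m, coeff m (ψ f) = coeff m f + 2 * ∑ j ∈ Finset.range m, (e m j : ℚ) * coeff j f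

/-- (HOM) -/
def S_HOM : Prop := (∃ ρ, IsRho ρ) ∧ ∃ ψ, IsPsi ψ

/-- (FE) Brouncker's functional equation `b(x) b(x+2) = (x+1)²` -/
def S_FE : Prop := ∀ (a : ℕ → ℚ⟦X⟧) (ρ ψ : ℚ⟦X⟧ →+* ℚ⟦X⟧), Tails a → IsRho ρ → IsPsi ψ →
  (1 - 2 * ρ (a 0)) * (1 - 2 * ψ (ρ (a 0))) * (1 + 2 * X) = (1 + X) ^ 2

/-- (G) -/
def S_G : Prop := ∃ y : ℕ → ℤ, y 0 = 0 ∧ y 1 = 0 ∧ y 2 = -1 ∧ y 3 = -10 ∧
  (2 - F) ^ 2 = F ^ 2 * (1 - 4 * X) * (1 + 2 * PowerSeries.mk fun k => (4 : ℚ) ^ k * (y k : ℚ))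

/-- `φ` is the substitution of `X / (1 - 4 X)` -/
def IsPhi (φ : ℚ⟦X⟧ →+* ℚ⟦X⟧) : Prop :=
  φ X * (1 - 4 * X) = X ∧ (∀ c, φ (C c) = C c) ∧
  (∀ f n, coeff n (g * φ f) = ∑ m ∈ Finset.range (n + 1),
    coeff m f * ((Nat.centralBinom n : ℚ) * (n.choose m : ℚ) / (Nat.centralBinom m : ℚ))) ∧
  (∀ f n, coeff n (g ^ 2 * φ f) = ∑ m ∈ Finset.range (n + 1),
    coeff m f * ((n.choose m : ℚ) * 4 ^ (n - m)))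

/-- `θ` is the substitution of `X / (1 + 4 X)` -/
def IsTheta (θ : ℚ⟦X⟧ →+* ℚ⟦X⟧) : Prop :=
  θ X * (1 + 4 * X) = X ∧ (∀ c, θ (C c) = C c) ∧
  (∀ f m, coeff m (θ f) = ∑ k ∈ Finset.range (m + 1),
    coeff k f * (((m - 1).choose (m - k) : ℚ) * (-4) ^ (m - k)))

/-- (GG) -/
def S_GG : Prop := g ^ 2 * (1 - 4 * X) = 1

/-- (SUBST) -/
def S_SUBST : Prop := ∃ φ θ : ℚ⟦X⟧ →+* ℚ⟦X⟧, IsPhi φ ∧ IsTheta θ ∧ ∀ f, φ (θ f) = f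

/-- properties of the series `U` (in the variable `w = x / (1 - 4 x)`) -/
def IsU (U : ℕ → ℤ) : Prop :=
  U 0 = 0 ∧ U 1 = 0 ∧ U 2 = 8 ∧ U 3 = 256 ∧ (∀ m, (2 : ℤ) ^ ((3 * m + 1) / 2) ∣ U m) ∧
  (∀ m, 1 ≤ m → (2 : ℤ) ^ (2 * m - 1) ∣
    U m - ∑ p ∈ Finset.HasAntidiagonal.antidiagonal m, U p.1 * U p.2)

/-- (U) -/
def S_U : Prop := S_G → S_GG → ∀ φ θ : ℚ⟦X⟧ →+* ℚ⟦X⟧, IsPhi φ → IsTheta θ → (∀ f, φ (θ f) = f) →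
  ∃ U : ℕ → ℤ, IsU U ∧
    F * (g + φ (1 - 2 * PowerSeries.mk fun k => (U k : ℚ))) = 2 * g

/-- properties of the coefficients `A`, `B` -/
def IsAB (A B : ℕ → ℤ) : Prop :=
  A 0 = 8 ∧ A 1 = 208 ∧ (∀ m, (2 : ℤ) ^ ((3 * m + 6) / 2) ∣ A m) ∧
  (∀ m, (2 : ℤ) ^ (2 * m + 3) ∣ B m) ∧
  ∀ n : ℕ, 2 * ((N (2 * n) 0 : ℚ) - (Cat n : ℚ)) =
    (∑ m ∈ Finset.range (n + 1),
      (A m : ℚ) * ((Nat.centralBinom n : ℚ) * (n.choose m : ℚ) / (Nat.centralBinom m : ℚ))) +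
    ∑ m ∈ Finset.range (n + 1), (B m : ℚ) * ((n.choose m : ℚ) * 4 ^ (n - m))

/-- (EXTR) -/
def S_EXTR : Prop := S_GG → ∀ φ : ℚ⟦X⟧ →+* ℚ⟦X⟧, IsPhi φ → ∀ U : ℕ → ℤ, IsU U →
  F * (g + φ (1 - 2 * PowerSeries.mk fun k => (U k : ℚ))) = 2 * g → ∃ A B : ℕ → ℤ, IsAB A B

/-- the 2-adic analytic function -/
noncomputable def fA (A : ℕ → ℤ) (n : ℕ) : ℚ :=
  ∑ m ∈ Finset.range (n + 1), (A m : ℚ) * (n.choose m : ℚ) / (8 * (Nat.centralBinom m : ℚ))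

/-- (ISO) -/
def S_ISO : Prop := ∀ A : ℕ → ℤ, A 0 = 8 → A 1 = 208 → (∀ m, (2 : ℤ) ^ ((3 * m + 6) / 2) ∣ A m) →
  ‖((fA A 0 : ℚ) : ℚ_[2])‖ ≤ 1 ∧
  ∀ n n' : ℕ, ‖((fA A n : ℚ) : ℚ_[2]) - ((fA A n' : ℚ) : ℚ_[2])‖ = ‖(n : ℚ_[2]) - (n' : ℚ_[2])‖

/-- (ALPHA) an isometry has a zero -/
def S_ALPHA : Prop := ∀ f : ℕ → ℚ_[2], ‖f 0‖ ≤ 1 →
  (∀ n n' : ℕ, ‖f n - f n'‖ = ‖(n : ℚ_[2]) - (n' : ℚ_[2])‖) →
  ∃ α : ℤ_[2], ∀ n : ℕ, ‖f n‖ = ‖(n : ℤ_[2]) - α‖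

/-- (DIG) the 2-adic valuation of the central binomial coefficient -/
def S_DIG : Prop := (∀ n : ℕ, padicValNat 2 (Nat.centralBinom n) = s2 n) ∧
  (∀ n n' : ℕ, n ≤ n' → 2 * n - s2 n ≤ 2 * n' - s2 n') ∧ (∀ n : ℕ, s2 n ≤ n)

/-- (COMP) a computation modulo `2^23` -/
def S_COMP : Prop := (2 : ℤ) ^ 22 ∣ (N (2 * 855) 0 : ℤ) - Cat 855 ∧
  ¬ (2 : ℤ) ^ 23 ∣ (N (2 * 855) 0 : ℤ) - Cat 855

/-- (FINAL) -/
def S_FINAL : Prop := S_PATH → (∃ A B : ℕ → ℤ, IsAB A B) → S_ISO → S_ALPHA → S_DIG → S_COMP →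
  MainStm

end Pool.Agent.R964.ML
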