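import Pool.Agent.R964.ML.Stm

/-! ML-SUBST and ML-GG (helper164). -/

set_option autoImplicit false

open scoped BigOperators
open PowerSeries

namespace Pool.Agent.R964.ML.Subst

theorem coeff_zero_mul (p : ℚ⟦X⟧) (c : ℚ) : coeff 0 (p * (1 - C c * X)) = coeff 0 p := by
  simp

theorem coeff_succ_mul (p : ℚ⟦X⟧) (c : ℚ) (n : ℕ) :
    coeff (n + 1) (p * (1 - C c * X)) = coeff (n + 1) p - c * coeff n p := by
  have e : p * (1 - C c * X) = p - (C c * p) * X := by ring
  rw [e, map_sub, coeff_succ_mul_X, coeff_C_mul]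

theorem four_eq : (4 : ℚ⟦X⟧) = C 4 := (map_ofNat (C (R := ℚ)) 4).symm

theorem one_sub_four : (1 - 4 * X : ℚ⟦X⟧) = 1 - C 4 * X := by rw [four_eq]

theorem one_add_four : (1 + 4 * X : ℚ⟦X⟧) = 1 - C (-4) * X := by
  rw [four_eq, map_neg]; ring

theorem gg : S_GG := by
  unfold S_GG
  have hD : d⁄dX ℚ g * (1 - 4 * X) = 2 * g := by
    ext n
    have h2 : (2 : ℚ⟦X⟧) = C 2 := (map_ofNat (C (R := ℚ)) 2).symm
    rw [one_sub_four, h2, coeff_C_mul]
    cases n with
    | zero =>
      rw [coeff_zero_mul, coeff_derivative]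
      simp [g, Nat.centralBinom_zero]
      norm_num [Nat.centralBinom, Nat.choose]
    | succ n =>
      rw [coeff_succ_mul, coeff_derivative, coeff_derivative]
      simp only [g, coeff_mk]
      have h1 : (((n + 1 + 1 : ℕ) : ℚ)) * (Nat.centralBinom (n + 1 + 1) : ℚ) =
          2 * (2 * ((n + 1 : ℕ) : ℚ) + 1) * (Nat.centralBinom (n + 1) : ℚ) := by
        exact_mod_cast Nat.succ_mul_centralBinom_succ (n + 1)
      push_cast at h1 ⊢
      linarith
  have hD2 : d⁄dX ℚ (1 - 4 * X : ℚ⟦X⟧) = - 4 := by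
    rw [one_sub_four, map_sub, Derivation.leibniz, derivative_C, derivative_X, four_eq]
    simp
  refine derivative.ext ?_ ?_
  · rw [Derivation.leibniz, Derivation.leibniz_pow, hD2, derivative_one]
    simp only [smul_eq_mul, nsmul_eq_mul]
    have : (1 - 4 * X : ℚ⟦X⟧) * (((2 : ℕ) : ℚ⟦X⟧) * (g ^ (2 - 1) * d⁄dX ℚ g)) =
        2 * g * (d⁄dX ℚ g * (1 - 4 * X)) := by
      push_cast
      ring
    rw [this, hD]
    ring
  · rw [map_mul, map_pow, map_sub, map_mul, constantCoeff_X]
    have : constantCoeff g = 1 := by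
      rw [← coeff_zero_eq_constantCoeff_apply, g, coeff_mk, Nat.centralBinom_zero]
      norm_num
    rw [this]
    simp

/-! ### coefficients of substitutions -/

theorem expand (φ : ℚ⟦X⟧ →+* ℚ⟦X⟧) (a : ℚ⟦X⟧) (hX : φ X = a) (hC : ∀ c, φ (C c) = C c) (k : ℕ) :
    ∀ f : ℚ⟦X⟧, ∃ r, φ f = ∑ m ∈ Finset.range k, C (coeff m f) * a ^ m + a ^ k * r := by
  induction k with
  | zero => intro f; exact ⟨φ f, by simp⟩
  | succ k ih =>
    intro f
    obtain ⟨r, hr⟩ := ih (mk fun p => coeff (p + 1) f)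
    refine ⟨r, ?_⟩
    have h1 := congrArg φ (eq_shift_mul_X_add_const f)
    rw [h1, map_add, map_mul, hX, hC, hr, Finset.sum_range_succ', add_mul, Finset.sum_mul]
    simp only [coeff_mk, pow_zero, mul_one]
    rw [← coeff_zero_eq_constantCoeff_apply]
    have e1 : ∀ m ∈ Finset.range k, C (coeff (m + 1) f) * a ^ m * a =
        C (coeff (m + 1) f) * a ^ (m + 1) := by
      intro m _
      ring
    rw [Finset.sum_congr rfl e1]
    ring

theorem coeff_hom (φ : ℚ⟦X⟧ →+* ℚ⟦X⟧) (a : ℚ⟦X⟧) (hX : φ X = a) (hC : ∀ c, φ (C c) = C c)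
    (ha : X ∣ a) (h f : ℚ⟦X⟧) (n : ℕ) :
    coeff n (h * φ f) = ∑ m ∈ Finset.range (n + 1), coeff m f * coeff n (h * a ^ m) := by
  obtain ⟨r, hr⟩ := expand φ a hX hC (n + 1) f
  rw [hr, mul_add, map_add, Finset.mul_sum, map_sum]
  have h0 : coeff n (h * (a ^ (n + 1) * r)) = 0 := by
    have hd : (X : ℚ⟦X⟧) ^ (n + 1) ∣ h * (a ^ (n + 1) * r) :=
      Dvd.dvd.mul_left (Dvd.dvd.mul_right (pow_dvd_pow_of_dvd ha _) _) _
    exact X_pow_dvd_iff.mp hd n (Nat.lt_succ_self n)
  rw [h0, add_zero]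
  refine Finset.sum_congr rfl fun m _ => ?_
  have e : h * (C (coeff m f) * a ^ m) = C (coeff m f) * (h * a ^ m) := by ring
  rw [e, coeff_C_mul]

/-- the geometric series -/
noncomputable def geo (c : ℚ) : ℚ⟦X⟧ := mk fun n => c ^ n

theorem geo_mul (c : ℚ) : geo c * (1 - C c * X) = 1 := by
  ext n
  cases n with
  | zero => rw [coeff_zero_mul]; simp [geo]
  | succ n =>
    rw [coeff_succ_mul]
    simp only [geo, coeff_mk]
    rw [coeff_one, if_neg (Nat.succ_ne_zero n)]
    ring

theorem hasSubst_geo (c : ℚ) : HasSubst (geo c * X : ℚ⟦X⟧) := by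
  apply HasSubst.of_constantCoeff_zero'
  simp

/-- the substitution of `X / (1 - c X)` -/
noncomputable def sub (c : ℚ) : ℚ⟦X⟧ →+* ℚ⟦X⟧ :=
  (substAlgHom (R := ℚ) (hasSubst_geo c)).toRingHom

theorem sub_X (c : ℚ) : sub c X = geo c * X := by
  show substAlgHom (R := ℚ) (hasSubst_geo c) X = _
  rw [coe_substAlgHom, subst_X (hasSubst_geo c)]

theorem sub_C (c d : ℚ) : sub c (C d) = C d := by
  show substAlgHom (R := ℚ) (hasSubst_geo c) (C d) = _
  rw [coe_substAlgHom]
  exact subst_C d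

/-! ### the coefficients for `φ` -/

theorem c_formula (m : ℕ) : ∀ n : ℕ, coeff n (g * (geo 4 * X) ^ m) =
    (Nat.centralBinom n : ℚ) * (n.choose m : ℚ) / (Nat.centralBinom m : ℚ) := by
  induction m with
  | zero =>
    intro n
    simp [g, Nat.centralBinom_zero]
  | succ m ih =>
    have hrec : g * (geo 4 * X) ^ (m + 1) * (1 - C 4 * X) = g * (geo 4 * X) ^ m * X := by
      have e : g * (geo 4 * X) ^ (m + 1) * (1 - C 4 * X) =
          g * (geo 4 * X) ^ m * X * (geo 4 * (1 - C 4 * X)) := by ring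
      rw [e, geo_mul, mul_one]
    intro n
    induction n with
    | zero =>
      have h1 := coeff_zero_mul (g * (geo 4 * X) ^ (m + 1)) 4
      rw [hrec] at h1
      rw [← h1]
      simp
    | succ n ihn =>
      have h1 := coeff_succ_mul (g * (geo 4 * X) ^ (m + 1)) 4 n
      rw [hrec, coeff_succ_mul_X, ih n, ihn] at h1
      have h2 : coeff (n + 1) (g * (geo 4 * X) ^ (m + 1)) =
          (Nat.centralBinom n : ℚ) * (n.choose m : ℚ) / (Nat.centralBinom m : ℚ) +
          4 * ((Nat.centralBinom n : ℚ) * (n.choose (m + 1) : ℚ) /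
            (Nat.centralBinom (m + 1) : ℚ)) := by
        linarith
      rw [h2]
      have a1 : ((n : ℚ) + 1) * (Nat.centralBinom (n + 1) : ℚ) =
          2 * (2 * (n : ℚ) + 1) * (Nat.centralBinom n : ℚ) := by
        exact_mod_cast Nat.succ_mul_centralBinom_succ n
      have a2 : ((m : ℚ) + 1) * (Nat.centralBinom (m + 1) : ℚ) =
          2 * (2 * (m : ℚ) + 1) * (Nat.centralBinom m : ℚ) := by
        exact_mod_cast Nat.succ_mul_centralBinom_succ m
      have a3 : ((n : ℚ) + 1) * (n.choose m : ℚ) =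
          ((n + 1).choose (m + 1) : ℚ) * ((m : ℚ) + 1) := by
        exact_mod_cast Nat.add_one_mul_choose_eq n m
      have a4 : (n.choose (m + 1) : ℚ) * ((m : ℚ) + 1) = (n.choose m : ℚ) * ((n : ℚ) - m) := by
        rcases le_or_gt m n with hmn | hmn
        · have := Nat.choose_succ_right_eq n m
          have h5 : ((n.choose (m + 1) * (m + 1) : ℕ) : ℚ) = ((n.choose m * (n - m) : ℕ) : ℚ) := by
            rw [this]
          push_cast [Nat.cast_sub hmn] at h5
          exact h5
        · rw [Nat.choose_eq_zero_of_lt hmn, Nat.choose_eq_zero_of_lt (by omega)]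
          simp
      have hcm : (Nat.centralBinom m : ℚ) ≠ 0 := by
        exact_mod_cast Nat.centralBinom_ne_zero m
      have hcm1 : (Nat.centralBinom (m + 1) : ℚ) ≠ 0 := by
        exact_mod_cast Nat.centralBinom_ne_zero (m + 1)
      have hn1 : ((n : ℚ) + 1) ≠ 0 := by positivity
      have hm1 : ((m : ℚ) + 1) ≠ 0 := by positivity
      have b1 : (Nat.centralBinom (n + 1) : ℚ) =
          2 * (2 * (n : ℚ) + 1) * (Nat.centralBinom n : ℚ) / ((n : ℚ) + 1) := by
        field_simp
        linarith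
      have b2 : (Nat.centralBinom (m + 1) : ℚ) =
          2 * (2 * (m : ℚ) + 1) * (Nat.centralBinom m : ℚ) / ((m : ℚ) + 1) := by
        field_simp
        linarith
      have b3 : ((n + 1).choose (m + 1) : ℚ) = ((n : ℚ) + 1) * (n.choose m : ℚ) / ((m : ℚ) + 1) := by
        field_simp
        linarith
      have b4 : (n.choose (m + 1) : ℚ) = (n.choose m : ℚ) * ((n : ℚ) - m) / ((m : ℚ) + 1) := by
        field_simp
        linarith
      have hm2 : (2 * (m : ℚ) + 1) ≠ 0 := by positivity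
      rw [b1, b2, b3, b4]
      field_simp
      ring

theorem e_formula (m : ℕ) : ∀ n : ℕ, coeff n (g ^ 2 * (geo 4 * X) ^ m) =
    (n.choose m : ℚ) * 4 ^ (n - m) := by
  have hg : g ^ 2 * (1 - C 4 * X) = 1 := by
    rw [← one_sub_four]
    exact gg
  induction m with
  | zero =>
    have hrec : g ^ 2 = geo 4 := by
      have e : g ^ 2 = g ^ 2 * (1 - C 4 * X) * geo 4 := by
        have : g ^ 2 * (1 - C 4 * X) * geo 4 = g ^ 2 * (geo 4 * (1 - C 4 * X)) := by ring
        rw [this, geo_mul, mul_one]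
      rw [e, hg, one_mul]
    intro n
    rw [pow_zero, mul_one, hrec]
    simp [geo]
  | succ m ih =>
    have hrec : g ^ 2 * (geo 4 * X) ^ (m + 1) * (1 - C 4 * X) = g ^ 2 * (geo 4 * X) ^ m * X := by
      have e : g ^ 2 * (geo 4 * X) ^ (m + 1) * (1 - C 4 * X) =
          g ^ 2 * (geo 4 * X) ^ m * X * (geo 4 * (1 - C 4 * X)) := by ring
      rw [e, geo_mul, mul_one]
    intro n
    induction n with
    | zero =>
      have h1 := coeff_zero_mul (g ^ 2 * (geo 4 * X) ^ (m + 1)) 4
      rw [hrec] at h1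
      rw [← h1]
      simp
    | succ n ihn =>
      have h1 := coeff_succ_mul (g ^ 2 * (geo 4 * X) ^ (m + 1)) 4 n
      rw [hrec, coeff_succ_mul_X, ih n, ihn] at h1
      have h2 : coeff (n + 1) (g ^ 2 * (geo 4 * X) ^ (m + 1)) =
          (n.choose m : ℚ) * 4 ^ (n - m) + 4 * ((n.choose (m + 1) : ℚ) * 4 ^ (n - (m + 1))) := by
        linarith
      rw [h2, Nat.choose_succ_succ]
      have e1 : n + 1 - (m + 1) = n - m := by omega
      rw [e1]
      rcases le_or_gt (m + 1) n with hmn | hmn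
      · have e2 : n - m = (n - (m + 1)) + 1 := by omega
        rw [e2, pow_succ]
        push_cast
        ring
      · rw [Nat.choose_eq_zero_of_lt hmn]
        push_cast
        ring

theorem v_zero (k : ℕ) : ∀ m : ℕ, m < k → coeff m ((geo (-4) * X) ^ k) = 0 := by
  intro m hm
  have hd : (X : ℚ⟦X⟧) ^ k ∣ (geo (-4) * X) ^ k := pow_dvd_pow_of_dvd (Dvd.intro_left _ rfl) _
  exact X_pow_dvd_iff.mp hd m hm

theorem v_formula (k : ℕ) : ∀ j : ℕ, coeff (k + j) ((geo (-4) * X) ^ k) =
    ((k + j - 1).choose j : ℚ) * (-4) ^ j := by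
  induction k with
  | zero =>
    intro j
    rw [pow_zero, coeff_one]
    cases j with
    | zero => simp
    | succ j =>
      rw [if_neg (by omega), Nat.choose_eq_zero_of_lt (by omega)]
      simp
  | succ k ih =>
    have hrec : (geo (-4) * X) ^ (k + 1) * (1 - C (-4) * X) = (geo (-4) * X) ^ k * X := by
      have e : (geo (-4) * X) ^ (k + 1) * (1 - C (-4) * X) =
          (geo (-4) * X) ^ k * X * (geo (-4) * (1 - C (-4) * X)) := by ring
      rw [e, geo_mul, mul_one]
    intro j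
    induction j with
    | zero =>
      have h1 := coeff_succ_mul ((geo (-4) * X) ^ (k + 1)) (-4) k
      have h3 := ih 0
      rw [add_zero] at h3
      rw [hrec, coeff_succ_mul_X, h3, v_zero (k + 1) k (Nat.lt_succ_self k)] at h1
      rw [add_zero]
      simp at h1 ⊢
      linarith
    | succ j ihj =>
      have h1 := coeff_succ_mul ((geo (-4) * X) ^ (k + 1)) (-4) (k + 1 + j)
      have e0 : k + 1 + j = k + (j + 1) := by ring
      have h3 := ih (j + 1)
      rw [hrec, coeff_succ_mul_X, ihj] at h1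
      rw [show k + 1 + j = k + (j + 1) from e0, h3] at h1
      have e5 : k + 1 + (j + 1) = k + (j + 1) + 1 := by ring
      have e6 : k + (j + 1) - 1 = k + j := by omega
      have e7 : k + (j + 1) + 1 - 1 = (k + j) + 1 := by omega
      rw [e6] at h1
      rw [e5, e7, Nat.choose_succ_succ]
      have e8 : ((-4 : ℚ)) ^ (j + 1) = (-4) ^ j * (-4) := pow_succ _ _
      have e9 : j.succ = j + 1 := rfl
      rw [e9]
      push_cast
      rw [e8] at h1 ⊢
      linear_combination (-1 : ℚ) * h1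

theorem main : S_SUBST := by
  have hX4 : (X : ℚ⟦X⟧) ∣ geo 4 * X := Dvd.intro_left _ rfl
  have hXm : (X : ℚ⟦X⟧) ∣ geo (-4) * X := Dvd.intro_left _ rfl
  refine ⟨sub 4, sub (-4), ⟨?_, sub_C 4, ?_, ?_⟩, ⟨?_, sub_C (-4), ?_⟩, ?_⟩
  · rw [sub_X, one_sub_four]
    have e : geo 4 * X * (1 - C 4 * X) = X * (geo 4 * (1 - C 4 * X)) := by ring
    rw [e, geo_mul, mul_one]
  · intro f n
    rw [coeff_hom (sub 4) _ (sub_X 4) (sub_C 4) hX4]
    refine Finset.sum_congr rfl fun m _ => ?_
    rw [c_formula]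
  · intro f n
    rw [coeff_hom (sub 4) _ (sub_X 4) (sub_C 4) hX4]
    refine Finset.sum_congr rfl fun m _ => ?_
    rw [e_formula]
  · rw [sub_X, one_add_four]
    have e : geo (-4) * X * (1 - C (-4) * X) = X * (geo (-4) * (1 - C (-4) * X)) := by ring
    rw [e, geo_mul, mul_one]
  · intro f m
    have h1 := coeff_hom (sub (-4)) _ (sub_X (-4)) (sub_C (-4)) hXm 1 f m
    rw [one_mul] at h1
    rw [h1]
    refine Finset.sum_congr rfl fun k hk => ?_
    have hk' : k ≤ m := by
      have := Finset.mem_range.mp hk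
      omega
    obtain ⟨j, rfl⟩ := Nat.exists_eq_add_of_le hk'
    rw [one_mul, v_formula, Nat.add_sub_cancel_left]
  · intro f
    have hcX : ((sub 4).comp (sub (-4))) X = X := by
      rw [RingHom.comp_apply, sub_X (-4), map_mul, sub_X 4]
      have h1 := congrArg (sub 4) (geo_mul (-4))
      rw [map_mul, map_sub, map_one, map_mul, sub_C, sub_X] at h1
      have h2 := geo_mul 4
      have e4 : (C (-4) : ℚ⟦X⟧) = - C 4 := map_neg _ _
      rw [e4] at h1
      have h3 : (1 - -C 4 * (geo 4 * X)) = geo 4 := by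
        have : (1 - -C 4 * (geo 4 * X)) * (1 - C 4 * X) = geo 4 * (1 - C 4 * X) := by
          have e : (1 - -C 4 * (geo 4 * X)) * (1 - C 4 * X) =
            (1 - C 4 * X) + C 4 * X * (geo 4 * (1 - C 4 * X)) := by ring
          rw [e, h2]
          ring
        calc (1 - -C 4 * (geo 4 * X)) = (1 - -C 4 * (geo 4 * X)) * (geo 4 * (1 - C 4 * X)) := by
              rw [h2, mul_one]
          _ = ((1 - -C 4 * (geo 4 * X)) * (1 - C 4 * X)) * geo 4 := by ring
          _ = geo 4 * (geo 4 * (1 - C 4 * X)) := by rw [this]; ring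
          _ = geo 4 := by rw [h2, mul_one]
      rw [h3] at h1
      calc sub 4 (geo (-4)) * (geo 4 * X) = (sub 4 (geo (-4)) * geo 4) * X := by ring
        _ = X := by rw [h1, one_mul]
    have hcC : ∀ c, ((sub 4).comp (sub (-4))) (C c) = C c := by
      intro c
      rw [RingHom.comp_apply, sub_C, sub_C]
    have hfin : ∀ n, coeff n (((sub 4).comp (sub (-4))) f) = coeff n f := by
      intro n
      have h1 := coeff_hom ((sub 4).comp (sub (-4))) X hcX hcC dvd_rfl 1 f n
      rw [one_mul] at h1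
      rw [h1, Finset.sum_eq_single n]
      · rw [one_mul, coeff_X_pow_self, mul_one]
      · intro m _ hmn
        rw [one_mul, coeff_X_pow, if_neg (Ne.symm hmn), mul_zero]
      · intro hn
        exact absurd (Finset.mem_range.mpr (Nat.lt_succ_self n)) hn
    ext n
    exact hfin n

end Pool.Agent.R964.ML.Subst
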