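import Pool.Agent.R964.ML.Stm

open scoped BigOperators
open PowerSeries

set_option autoImplicit false

namespace Pool.Agent.R964.ML.U

/-- the transformed integers -/
def zz (y : ℕ → ℤ) (m : ℕ) : ℤ :=
  ∑ k ∈ Finset.range (m + 1), y k * ((m - 1).choose (m - k) * (-1) ^ (m - k))

/-- solution of `U = Y + U ^ 2` -/
def Us (Y : ℕ → ℤ) : ℕ → ℤ
  | 0 => 0
  | m + 1 => Y (m + 1) + ∑ i : Fin m, Us Y (i + 1) * Us Y (m - i)
termination_by m => m
decreasing_by all_goals omega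

theorem Us_zero (Y : ℕ → ℤ) : Us Y 0 = 0 := by
  rw [Us]

theorem Us_succ (Y : ℕ → ℤ) (m : ℕ) :
    Us Y (m + 1) = Y (m + 1) + ∑ i ∈ Finset.range m, Us Y (i + 1) * Us Y (m - i) := by
  rw [Us, Finset.sum_range]

theorem Us_anti (Y : ℕ → ℤ) (m : ℕ) :
    Us Y (m + 1) = Y (m + 1) +
      ∑ p ∈ Finset.HasAntidiagonal.antidiagonal (m + 1), Us Y p.1 * Us Y p.2 := by
  rw [Us_succ, Finset.Nat.sum_antidiagonal_eq_sum_range_succ (fun a b => Us Y a * Us Y b),
    Finset.sum_range_succ, Finset.sum_range_succ']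
  have e : ∑ k ∈ Finset.range m, Us Y (k + 1) * Us Y (m + 1 - (k + 1)) =
      ∑ i ∈ Finset.range m, Us Y (i + 1) * Us Y (m - i) := by
    refine Finset.sum_congr rfl fun k _ => ?_
    rw [Nat.add_sub_add_right]
  rw [e, Nat.sub_self, Us_zero]
  ring

theorem Us_dvd (Y : ℕ → ℤ) (h1 : Y 1 = 0) (hY : ∀ m, 1 ≤ m → (2 : ℤ) ^ (2 * m - 1) ∣ Y m) (m : ℕ) :
    (2 : ℤ) ^ ((3 * m + 1) / 2) ∣ Us Y m := by
  induction m using Nat.strong_induction_on with
  | _ m ih =>
    rcases m with _ | m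
    · rw [Us_zero]
      exact dvd_zero _
    · rw [Us_succ]
      apply dvd_add
      · rcases Nat.eq_zero_or_pos m with rfl | hm
        · rw [zero_add, h1]
          exact dvd_zero _
        · exact (pow_dvd_pow 2 (by omega)).trans (hY (m + 1) (by omega))
      · refine Finset.dvd_sum fun i hi => ?_
        have hi' := Finset.mem_range.1 hi
        have d1 := ih (i + 1) (by omega)
        have d2 := ih (m - i) (by omega)
        refine (pow_dvd_pow 2 ?_).trans (by rw [pow_add]; exact mul_dvd_mul d1 d2)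
        omega

theorem coeff_H (y : ℕ → ℤ) (_hy : y 0 = 0) (k : ℕ) :
    coeff k (1 + 2 * PowerSeries.mk fun k => (4 : ℚ) ^ k * (y k : ℚ)) =
      (if k = 0 then 1 else 0) + 2 * ((4 : ℚ) ^ k * (y k : ℚ)) := by
  have e : (2 : ℚ⟦X⟧) = C 2 := rfl
  rw [map_add, coeff_one, e, coeff_C_mul, coeff_mk]

theorem coeff_theta (y : ℕ → ℤ) (hy : y 0 = 0) (θ : ℚ⟦X⟧ →+* ℚ⟦X⟧) (hθ : IsTheta θ) (m : ℕ) :
    coeff m (θ (1 + 2 * PowerSeries.mk fun k => (4 : ℚ) ^ k * (y k : ℚ))) =
      (if m = 0 then 1 else 0) + 2 * ((4 : ℚ) ^ m * (zz y m : ℚ)) := by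
  rw [hθ.2.2]
  simp only [coeff_H y hy]
  have e1 : ∀ k ∈ Finset.range (m + 1),
      ((if k = 0 then (1 : ℚ) else 0) + 2 * ((4 : ℚ) ^ k * (y k : ℚ))) *
        (((m - 1).choose (m - k) : ℚ) * (-4) ^ (m - k)) =
      (if k = 0 then (((m - 1).choose (m - k) : ℚ) * (-4) ^ (m - k)) else 0) +
        2 * ((4 : ℚ) ^ m * ((y k : ℚ) * ((m - 1).choose (m - k) * (-1) ^ (m - k)))) := by
    intro k hk
    have hk' : k ≤ m := Nat.le_of_lt_succ (Finset.mem_range.1 hk)
    have e2 : (4 : ℚ) ^ m = 4 ^ k * 4 ^ (m - k) := by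
      rw [← pow_add, Nat.add_sub_cancel' hk']
    have e3 : (-4 : ℚ) ^ (m - k) = (-1) ^ (m - k) * 4 ^ (m - k) := by
      rw [← mul_pow]
      norm_num
    rw [e2, e3]
    split_ifs
    · ring
    · ring
  rw [Finset.sum_congr rfl e1, Finset.sum_add_distrib, Finset.sum_ite_eq',
    if_pos (Finset.mem_range.2 (Nat.succ_pos m)), ← Finset.mul_sum, ← Finset.mul_sum]
  have e4 : (((m - 1).choose (m - 0) : ℕ) : ℚ) * (-4) ^ (m - 0) = if m = 0 then 1 else 0 := by
    rcases Nat.eq_zero_or_pos m with rfl | hm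
    · simp
    · rw [if_neg hm.ne', Nat.sub_zero, Nat.choose_eq_zero_of_lt (by omega)]
      simp
  rw [e4]
  unfold zz
  push_cast
  rfl

theorem main : S_U := by
  intro hG hGG φ θ hφ hθ hφθ
  obtain ⟨y, hy0, hy1, hy2, hy3, hF⟩ := hG
  set H : ℚ⟦X⟧ := 1 + 2 * PowerSeries.mk fun k => (4 : ℚ) ^ k * (y k : ℚ) with hH
  -- the series Y
  let Y : ℕ → ℤ := fun m => -(2 ^ (2 * m - 1) * zz y m)
  have hz0 : zz y 0 = 0 := by simp [zz, hy0]
  have hz1 : zz y 1 = 0 := by simp [zz, Finset.sum_range_succ, hy0, hy1]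
  have hz2 : zz y 2 = -1 := by
    simp [zz, Finset.sum_range_succ, hy0, hy1, hy2]
  have hz3 : zz y 3 = -8 := by
    simp [zz, Finset.sum_range_succ, hy0, hy1, hy2, hy3]
  have hY1 : Y 1 = 0 := by simp [Y, hz1]
  have hY2 : Y 2 = 8 := by simp [Y, hz2]
  have hY3 : Y 3 = 256 := by simp [Y, hz3]
  have hYd : ∀ m, 1 ≤ m → (2 : ℤ) ^ (2 * m - 1) ∣ Y m := by
    intro m _
    exact (Dvd.intro _ rfl).neg_right
  have hU1 : Us Y 1 = 0 := by
    have := Us_succ Y 0
    simpa [hY1] using this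
  have hU2 : Us Y 2 = 8 := by
    have := Us_succ Y 1
    simpa [Finset.sum_range_succ, hU1, hY2] using this
  have hU3 : Us Y 3 = 256 := by
    have := Us_succ Y 2
    simpa [Finset.sum_range_succ, hU1, hU2, hY3] using this
  refine ⟨Us Y, ⟨Us_zero Y, hU1, hU2, hU3, Us_dvd Y hY1 hYd, ?_⟩, ?_⟩
  · intro m hm
    obtain ⟨m, rfl⟩ : ∃ m', m = m' + 1 := ⟨m - 1, by omega⟩
    rw [Us_anti, add_sub_cancel_right]
    exact hYd (m + 1) hm
  · set Up : ℚ⟦X⟧ := PowerSeries.mk fun k => (Us Y k : ℚ) with hUp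
    have hsq : (1 - 2 * Up) ^ 2 = θ H := by
      have h1 : (1 - 2 * Up) ^ 2 = 1 + C (-4) * (Up - Up ^ 2) := by
        have e : (C (-4 : ℚ) : ℚ⟦X⟧) = -4 := by
          rw [map_neg]
          rfl
        rw [e]
        ring
      rw [h1]
      ext m
      rw [coeff_theta y hy0 θ hθ m, map_add, coeff_one, coeff_C_mul, map_sub, pow_two, coeff_mul]
      congr 1
      simp only [hUp, coeff_mk]
      rcases Nat.eq_zero_or_pos m with rfl | hm
      · simp [Us_zero, hz0]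
      · obtain ⟨m, rfl⟩ : ∃ m', m = m' + 1 := ⟨m - 1, by omega⟩
        have h2 := Us_anti Y m
        have h3 : (Us Y (m + 1) : ℚ) = (Y (m + 1) : ℚ) +
            ∑ p ∈ Finset.HasAntidiagonal.antidiagonal (m + 1), (Us Y p.1 : ℚ) * (Us Y p.2 : ℚ) := by
          rw [h2]
          push_cast
          rfl
        rw [h3, add_sub_cancel_right]
        simp only [Y]
        push_cast
        have e5 : 2 * (m + 1) - 1 = 2 * m + 1 := by omega
        have e6 : (4 : ℚ) ^ (m + 1) = 2 ^ (2 * m + 1) * 2 := by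
          rw [← pow_succ, show (4 : ℚ) = 2 ^ 2 by norm_num, ← pow_mul]
          congr 1
        rw [e5, e6]
        ring
    have hphi : (φ (1 - 2 * Up)) ^ 2 = H := by
      rw [← map_pow, hsq, hφθ]
    have hprod : ((2 - F) * g - F * φ (1 - 2 * Up)) * ((2 - F) * g + F * φ (1 - 2 * Up)) = 0 := by
      have e7 : g ^ 2 * (1 - 4 * X) = 1 := hGG
      have e8 : ((2 - F) * g - F * φ (1 - 2 * Up)) * ((2 - F) * g + F * φ (1 - 2 * Up)) =
          g ^ 2 * (2 - F) ^ 2 - F ^ 2 * (φ (1 - 2 * Up)) ^ 2 := by ring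
      rw [e8, hphi, hF]
      linear_combination (F ^ 2 * H) * e7
    have hc : constantCoeff ((2 - F) * g + F * φ (1 - 2 * Up)) ≠ 0 := by
      have c1 : constantCoeff F = 1 := by
        rw [← coeff_zero_eq_constantCoeff_apply, F, coeff_mk]
        simp [N]
      have c2 : constantCoeff g = 1 := by
        rw [← coeff_zero_eq_constantCoeff_apply, g, coeff_mk]
        simp
      have c3 : constantCoeff (φ (1 - 2 * Up)) = 1 := by
        have h4 := hφ.2.2.1 (1 - 2 * Up) 0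
        rw [coeff_zero_eq_constantCoeff_apply, map_mul, c2, one_mul] at h4
        rw [h4]
        have e9 : coeff 0 (1 - 2 * Up) = 1 := by
          have e : (2 : ℚ⟦X⟧) = C 2 := rfl
          rw [map_sub, e, coeff_C_mul, hUp, coeff_mk, Us_zero]
          simp
        rw [zero_add, Finset.sum_range_one, e9]
        simp
      have c4 : constantCoeff (2 : ℚ⟦X⟧) = 2 := map_ofNat _ 2
      rw [map_add, map_mul, map_mul, map_sub, c1, c2, c3, c4]
      norm_num
    have hne : (2 - F) * g + F * φ (1 - 2 * Up) ≠ 0 := by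
      intro h0
      rw [h0, map_zero] at hc
      exact hc rfl
    have h5 := (mul_eq_zero.1 hprod).resolve_right hne
    linear_combination -h5

end Pool.Agent.R964.ML.U
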